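import Pool.Agent.Lib.MP_038c09_al.Eval
import Pool.Agent.Lib.MP_038c09_al.UndDefs

/-!
A finitely based variety of metabelian algebras, and the insertion operators on its free algebras.
-/

namespace Pool.Agent.Lib.MP_038c09_al.Bo

variable {F : Type} [Field F] {B B' : Type} [AddCommGroup B] [Module F B] [AddCommGroup B']
  [Module F B'] {X Y : Type}

/-- the span of the products -/
def D (μ : B →ₗ[F] B →ₗ[F] B) : Submodule F B := Submodule.span F {x | ∃ a b, x = μ a b}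

theorem mem_D (μ : B →ₗ[F] B →ₗ[F] B) (a b : B) : μ a b ∈ D μ :=
  Submodule.subset_span ⟨a, b, rfl⟩

theorem D_le {μ : B →ₗ[F] B →ₗ[F] B} {W : Submodule F B} (h : ∀ a b, μ a b ∈ W) : D μ ≤ W :=
  Submodule.span_le.2 (by rintro _ ⟨a, b, rfl⟩; exact h a b)

theorem D_eq {μ : B →ₗ[F] B →ₗ[F] B} (f g : B →ₗ[F] B') (h : ∀ a b, f (μ a b) = g (μ a b))
    {w : B} (hw : w ∈ D μ) : f w = g w :=
  D_le (W := LinearMap.eqLocus f g) h hw

/-- the letters: a left multiplication, or a left followed by a right multiplication -/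
def U (μ : B →ₗ[F] B →ₗ[F] B) : B × Option B → B →ₗ[F] B
  | (c, none) => μ c
  | (c, some d) => μ.flip d ∘ₗ μ c

@[simp] theorem U_none (μ : B →ₗ[F] B →ₗ[F] B) (c w : B) : U μ (c, none) w = μ c w := rfl

@[simp] theorem U_some (μ : B →ₗ[F] B →ₗ[F] B) (c d w : B) :
    U μ (c, some d) w = μ (μ c w) d := rfl

theorem U_D (μ : B →ₗ[F] B →ₗ[F] B) (p : B × Option B) (w : B) : U μ p w ∈ D μ := by
  obtain ⟨c, _ | d⟩ := p
  · exact mem_D μ _ _
  · exact mem_D μ _ _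

theorem U_congr (μ : B →ₗ[F] B →ₗ[F] B) {w w' : B} (h : ∀ y, μ y w = μ y w')
    (p : B × Option B) : U μ p w = U μ p w' := by
  obtain ⟨c, _ | d⟩ := p <;> simp [h]

/-- the laws of the base variety -/
structure Base (μ : B →ₗ[F] B →ₗ[F] B) : Prop where
  mm : ∀ w ∈ D μ, ∀ w' ∈ D μ, μ w w' = 0
  sk : ∀ w ∈ D μ, ∀ c d, μ (μ w c) d = -μ (μ w d) c
  lrr : ∀ w ∈ D μ, ∀ c d e, μ (μ (μ c w) d) e = 0
  cc : ∀ w ∈ D μ, ∀ p q e, μ e (U μ p (U μ q w)) = μ e (U μ q (U μ p w))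

/-- a variable -/
abbrev o (i : ℕ) : FreeMagma ℕ := .of i

/-- the identities of the base variety -/
noncomputable def baseSet (F : Type) [Field F] : Set (FA F ℕ) :=
  {metab F,
    mon F (((o 0 * o 1) * o 2) * o 3) + mon F (((o 0 * o 1) * o 3) * o 2),
    mon F (((o 2 * (o 0 * o 1)) * o 3) * o 4),
    mon F (o 4 * (o 2 * (o 3 * (o 0 * o 1)))) - mon F (o 4 * (o 3 * (o 2 * (o 0 * o 1)))),
    mon F (o 5 * (o 2 * ((o 3 * (o 0 * o 1)) * o 4))) -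
      mon F (o 5 * ((o 3 * (o 2 * (o 0 * o 1))) * o 4)),
    mon F (o 6 * ((o 2 * ((o 4 * (o 0 * o 1)) * o 5)) * o 3)) -
      mon F (o 6 * ((o 4 * ((o 2 * (o 0 * o 1)) * o 3)) * o 5))}

/-- `f` is an identity of the product `μ` -/
def Holds (μ : B →ₗ[F] B →ₗ[F] B) (f : FA F ℕ) : Prop := ∀ φ : ℕ → B, evL μ φ f = 0

theorem evm_of (μ : B →ₗ[F] B →ₗ[F] B) (v : X → B) (x : X) : evm μ v (.of x) = v x := rfl

theorem base_iff (μ : B →ₗ[F] B →ₗ[F] B) : (∀ f ∈ baseSet F, Holds μ f) ↔ Base μ := by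
  simp only [baseSet, Set.mem_insert_iff, Set.mem_singleton_iff, forall_eq_or_imp, forall_eq,
    Holds, metab, map_add, map_sub, evL_mon, evm_mul, evm_of, sub_eq_zero]
  constructor
  · rintro ⟨h1, h2, h3, h4, h5, h6⟩
    have c12 : ∀ w ∈ D μ, ∀ c d d' e, μ e (μ c (μ (μ d w) d')) = μ e (μ (μ d (μ c w)) d') :=
      fun w hw c d d' e => D_eq (μ e ∘ₗ μ c ∘ₗ μ.flip d' ∘ₗ μ d) (μ e ∘ₗ μ.flip d' ∘ₗ μ d ∘ₗ μ c)
        (fun a b => h5 fun i => [a, b, c, d, d', e].getD i 0) hw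
    refine ⟨fun w hw w' hw' => ?_, fun w hw c d => ?_, fun w hw c d e => ?_,
      fun w hw p q e => ?_⟩
    · refine D_eq (μ.flip w') 0 (fun a b => ?_) hw
      exact D_eq (μ (μ a b)) 0 (fun c d => h1 fun i => [a, b, c, d].getD i 0) hw'
    · exact D_eq (μ.flip d ∘ₗ μ.flip c) (-(μ.flip c ∘ₗ μ.flip d))
        (fun a b => eq_neg_of_add_eq_zero_left (h2 fun i => [a, b, c, d].getD i 0)) hw
    · exact D_eq (μ.flip e ∘ₗ μ.flip d ∘ₗ μ c) 0
        (fun a b => h3 fun i => [a, b, c, d, e].getD i 0) hw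
    · obtain ⟨c, _ | c'⟩ := p <;> obtain ⟨d, _ | d'⟩ := q
      · exact D_eq (μ e ∘ₗ μ c ∘ₗ μ d) (μ e ∘ₗ μ d ∘ₗ μ c)
          (fun a b => h4 fun i => [a, b, c, d, e].getD i 0) hw
      · exact c12 w hw c d d' e
      · exact (c12 w hw d c c' e).symm
      · exact D_eq (μ e ∘ₗ μ.flip c' ∘ₗ μ c ∘ₗ μ.flip d' ∘ₗ μ d)
          (μ e ∘ₗ μ.flip d' ∘ₗ μ d ∘ₗ μ.flip c' ∘ₗ μ c)
          (fun a b => h6 fun i => [a, b, c, c', d, d', e].getD i 0) hw
  · intro h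
    refine ⟨fun φ => h.mm _ (mem_D _ _ _) _ (mem_D _ _ _), fun φ => ?_,
      fun φ => h.lrr _ (mem_D _ _ _) _ _ _, fun φ => h.cc _ (mem_D _ _ _) (_, none) (_, none) _,
      fun φ => h.cc _ (mem_D _ _ _) (_, none) (_, some _) _,
      fun φ => h.cc _ (mem_D _ _ _) (_, some _) (_, some _) _⟩
    rw [h.sk _ (mem_D _ _ _), neg_add_cancel]

theorem fa_ind (W : Submodule F (FA F X)) (h1 : ∀ x, FreeNonUnitalNonAssocAlgebra.of F x ∈ W)
    (h2 : ∀ a ∈ W, ∀ b ∈ W, a * b ∈ W) (f : FA F X) : f ∈ W := by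
  induction f using MonoidAlgebra.induction_linear with
  | zero => exact W.zero_mem
  | add f g h h' => exact W.add_mem h h'
  | single s a =>
    rw [single_eq]
    refine W.smul_mem _ ?_
    induction s with
    | ih1 x => exact h1 x
    | ih2 s t hs ht => rw [mon_mul]; exact h2 _ hs _ ht

theorem evL_of (μ : B →ₗ[F] B →ₗ[F] B) (v : X → B) (x : X) :
    evL μ v (FreeNonUnitalNonAssocAlgebra.of F x) = v x := by
  rw [← mon_of, evL_mon]; rfl

theorem hom_lift (μ : B →ₗ[F] B →ₗ[F] B) (h : FA F X →ₗ[F] B)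
    (hmul : ∀ f g, h (f * g) = μ (h f) (h g)) (φ : Y → FA F X) (f : FA F Y) :
    h (FreeNonUnitalNonAssocAlgebra.lift F φ f) = evL μ (fun i => h (φ i)) f := by
  induction f using MonoidAlgebra.induction_linear with
  | zero => simp
  | add f g h h' => simp [h, h']
  | single s a => rw [single_eq, map_smul, map_smul, map_smul, hom_lift_mon μ h hmul, evL_mon]

theorem tval_ker {I : Set (FA F ℕ)} (μ : B →ₗ[F] B →ₗ[F] B) (h : FA F X →ₗ[F] B)
    (hmul : ∀ f g, h (f * g) = μ (h f) (h g)) (hI : ∀ f ∈ I, Holds μ f) :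
    TVal I X ⊆ LinearMap.ker h := by
  rintro _ ⟨f, hf, φ, rfl⟩
  exact (hom_lift μ h hmul φ f).trans (hI f hf _)

theorem holds_of {I : Set (FA F ℕ)} (μ : B →ₗ[F] B →ₗ[F] B) (h : FA F X →ₗ[F] B)
    (hmul : ∀ f g, h (f * g) = μ (h f) (h g)) (hs : Function.Surjective h)
    (hI : TVal I X ⊆ LinearMap.ker h) : ∀ f ∈ I, Holds μ f := fun f hf φ => by
  choose s hs using hs
  have := hI ⟨f, hf, fun i => s (φ i), rfl⟩
  rwa [SetLike.mem_coe, LinearMap.mem_ker, hom_lift μ h hmul, funext fun i => hs (φ i)] at this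

/-- `v` generates the algebra -/
def Gen (μ : B →ₗ[F] B →ₗ[F] B) (v : X → B) : Prop :=
  ∀ W : Submodule F B, (∀ x, v x ∈ W) → (∀ a ∈ W, ∀ b ∈ W, μ a b ∈ W) → ∀ a, a ∈ W

theorem gen_of (μ : B →ₗ[F] B →ₗ[F] B) (h : FA F X →ₗ[F] B)
    (hmul : ∀ f g, h (f * g) = μ (h f) (h g)) (hs : Function.Surjective h) :
    Gen μ fun x => h (FreeNonUnitalNonAssocAlgebra.of F x) := fun W h1 h2 a => by
  obtain ⟨f, rfl⟩ := hs a
  exact fa_ind (W.comap h) h1 (fun a ha b hb => by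
    rw [Submodule.mem_comap, hmul]; exact h2 _ ha _ hb) f

/-- the product that computes the linear part, the initial run and the insertions -/
def mu3 {ι : Type} (μ : B →ₗ[F] B →ₗ[F] B) (lt : ι → B × Option B) :
    (B × B × (ι → B)) →ₗ[F] (B × B × (ι → B)) →ₗ[F] (B × B × (ι → B)) :=
  LinearMap.mk₂ F (fun a b => (0, μ a.1 b.1 + μ a.2.1 b.1, fun i =>
      U μ (lt i) (μ a.1 b.1) + μ (a.2.2 i) b.1 + U μ (lt i) (μ a.2.1 b.1) -
        μ (U μ (lt i) a.2.1) b.1 + μ a.1 (b.2.2 i)))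
    (fun a a' b => by ext <;> simp <;> abel) (fun c a b => by ext <;> simp [smul_sub])
    (fun a b b' => by ext <;> simp <;> abel) (fun c a b => by ext <;> simp [smul_sub])

theorem mu3_apply {ι : Type} (μ : B →ₗ[F] B →ₗ[F] B) (lt : ι → B × Option B)
    (a b : B × B × (ι → B)) : mu3 μ lt a b = (0, μ a.1 b.1 + μ a.2.1 b.1, fun i =>
      U μ (lt i) (μ a.1 b.1) + μ (a.2.2 i) b.1 + U μ (lt i) (μ a.2.1 b.1) -
        μ (U μ (lt i) a.2.1) b.1 + μ a.1 (b.2.2 i)) := rfl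

theorem mu3_D {ι : Type} (μ : B →ₗ[F] B →ₗ[F] B) (lt : ι → B × Option B)
    {w : B × B × (ι → B)} (hw : w ∈ D (mu3 μ lt)) :
    w.1 = 0 ∧ w.2.1 ∈ D μ ∧ ∀ i, w.2.2 i ∈ D μ := by
  induction hw using Submodule.span_induction with
  | mem x hx =>
    obtain ⟨a, b, rfl⟩ := hx
    exact ⟨rfl, add_mem (mem_D _ _ _) (mem_D _ _ _), fun i => add_mem (sub_mem (add_mem
      (add_mem (U_D _ _ _) (mem_D _ _ _)) (U_D _ _ _)) (mem_D _ _ _)) (mem_D _ _ _)⟩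
  | zero => exact ⟨rfl, zero_mem _, fun _ => zero_mem _⟩
  | add x y _ _ h h' =>
    exact ⟨by simp [h.1, h'.1], add_mem h.2.1 h'.2.1, fun i => add_mem (h.2.2 i) (h'.2.2 i)⟩
  | smul c x _ h =>
    exact ⟨by simp [h.1], Submodule.smul_mem _ c h.2.1, fun i => Submodule.smul_mem _ c (h.2.2 i)⟩

theorem mu3_base {ι : Type} {μ : B →ₗ[F] B →ₗ[F] B} (h : Base μ) (lt : ι → B × Option B) :
    Base (mu3 μ lt) := by
  have hU : ∀ (p : (B × B × (ι → B)) × Option (B × B × (ι → B))) (w : B × B × (ι → B)),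
      w.1 = 0 → U (mu3 μ lt) p w =
        (0, 0, fun i => U μ (p.1.1, p.2.map Prod.fst) (w.2.2 i)) := by
    rintro ⟨c, _ | d⟩ w hw <;> simp [mu3_apply, hw]
  refine ⟨fun w hw w' hw' => ?_, fun w hw c d => ?_, fun w hw c d e => ?_, fun w hw p q e => ?_⟩
  · simp [mu3_apply, (mu3_D μ lt hw).1, (mu3_D μ lt hw').1]; rfl
  · obtain ⟨h1, h2, h3⟩ := mu3_D μ lt hw
    ext i
    · simp [mu3_apply]
    · simpa [mu3_apply, h1] using h.sk _ h2 _ _
    · simp only [mu3_apply, h1, map_zero, LinearMap.zero_apply, zero_add, add_zero, map_sub,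
        map_add, LinearMap.sub_apply, LinearMap.add_apply, Prod.snd_neg, Pi.neg_apply]
      rw [h.sk _ h2, h.sk _ (h3 i), h.sk _ (U_D μ (lt i) w.2.1), map_neg]
      abel
  · obtain ⟨h1, h2, h3⟩ := mu3_D μ lt hw
    ext i
    · simp [mu3_apply]
    · simp [mu3_apply, h1]
    · simpa [mu3_apply, h1] using h.lrr _ (h3 i) _ _ _
  · obtain ⟨h1, h2, h3⟩ := mu3_D μ lt hw
    rw [hU q w h1, hU p w h1, hU p _ rfl, hU q _ rfl]
    ext i
    · simp [mu3_apply]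
    · simp [mu3_apply]
    · simpa [mu3_apply] using h.cc _ (h3 i) _ _ _

/-- linear part, initial run and insertion operators -/
structure Ops {ι : Type} (μ : B →ₗ[F] B →ₗ[F] B) (v : X → B) (lt : ι → B × Option B)
    (l r : B →ₗ[F] B) (θ : ι → B →ₗ[F] B) : Prop where
  lv : ∀ x, l (v x) = v x
  rv : ∀ x, r (v x) = 0
  tv : ∀ i x, θ i (v x) = 0
  lm : ∀ a b, l (μ a b) = 0
  rm : ∀ a b, r (μ a b) = μ (l a) (l b) + μ (r a) (l b)
  tm : ∀ i a b, θ i (μ a b) = U μ (lt i) (μ (l a) (l b)) + μ (θ i a) (l b) +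
    U μ (lt i) (μ (r a) (l b)) - μ (U μ (lt i) (r a)) (l b) + μ (l a) (θ i b)

theorem exists_ops {ι : Type} {μ : B →ₗ[F] B →ₗ[F] B} (h : Base μ) (lt : ι → B × Option B)
    (q : FA F X →ₗ[F] B) (hmul : ∀ f g, q (f * g) = μ (q f) (q g)) (hs : Function.Surjective q)
    (hk : LinearMap.ker q ≤ idealGen (TVal (baseSet F) X)) :
    ∃ l r θ, Ops μ (fun x => q (FreeNonUnitalNonAssocAlgebra.of F x)) lt l r θ := by
  set e := evL (mu3 μ lt) fun x => ((q (FreeNonUnitalNonAssocAlgebra.of F x), 0, 0) :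
    B × B × (ι → B)) with he
  have h1 : LinearMap.ker q ≤ LinearMap.ker e := hk.trans (idealGen_le
    (isIdeal_ker _ _ (evL_mul _ _)) (tval_ker _ _ (evL_mul _ _)
      ((base_iff _).2 (mu3_base h lt))))
  obtain ⟨s, hs'⟩ := q.exists_rightInverse_of_surjective (LinearMap.range_eq_top.2 hs)
  have h2 : ∀ f, (e ∘ₗ s) (q f) = e f := fun f =>
    (LinearMap.sub_mem_ker_iff.1 (h1 (LinearMap.sub_mem_ker_iff.2
      (LinearMap.congr_fun hs' (q f)))))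
  have h3 : ∀ a b, (e ∘ₗ s) (μ a b) = mu3 μ lt ((e ∘ₗ s) a) ((e ∘ₗ s) b) := fun a b => by
    obtain ⟨a, rfl⟩ := hs a
    obtain ⟨b, rfl⟩ := hs b
    rw [← hmul, h2, h2, h2, evL_mul]
  have h4 : ∀ x, (e ∘ₗ s) (q (FreeNonUnitalNonAssocAlgebra.of F x)) =
      (q (FreeNonUnitalNonAssocAlgebra.of F x), 0, 0) := fun x => (h2 _).trans (evL_of _ _ x)
  generalize e ∘ₗ s = π at h3 h4
  refine ⟨LinearMap.fst F _ _ ∘ₗ π, LinearMap.fst F _ _ ∘ₗ LinearMap.snd F _ _ ∘ₗ π,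
    fun i => LinearMap.proj i ∘ₗ LinearMap.snd F _ _ ∘ₗ LinearMap.snd F _ _ ∘ₗ π,
    fun x => ?_, fun x => ?_, fun i x => ?_, fun a b => ?_, fun a b => ?_, fun i a b => ?_⟩ <;>
  simp [h3, h4, mu3_apply]

end Pool.Agent.Lib.MP_038c09_al.Bo
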