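import Pool.Agent.Lib.MP_038c09_al.Bo.B1
import Pool.Agent.Lib.MP_038c09_al.Krull

/-!
Structure of finitely generated free algebras of the base variety.
-/

namespace Pool.Agent.Lib.MP_038c09_al.Bo

variable {F : Type} [Field F] {B : Type} [AddCommGroup B] [Module F B] {X : Type}
  {μ : B →ₗ[F] B →ₗ[F] B} {v : X → B}

theorem gen_top (g : Gen μ v) (a : B) : a ∈ Submodule.span F (Set.range v) ⊔ D μ :=
  g _ (fun x => Submodule.mem_sup_left (Submodule.subset_span (Set.mem_range_self x)))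
    (fun a _ b _ => Submodule.mem_sup_right (mem_D μ a b)) a

theorem gensL (h : Base μ) (g : Gen μ v) {w : B} (hw : w ∈ D μ) {W : Submodule F B}
    (h1 : ∀ x, μ (v x) w ∈ W) (y : B) : μ y w ∈ W :=
  g (W.comap (μ.flip w)) h1 (fun a _ b _ => by
    rw [Submodule.mem_comap, LinearMap.flip_apply, h.mm _ (mem_D _ _ _) _ hw]
    exact W.zero_mem) y

theorem gensR (h : Base μ) (g : Gen μ v) {w : B} (hw : w ∈ D μ) {W : Submodule F B}
    (h1 : ∀ x, μ w (v x) ∈ W) (y : B) : μ w y ∈ W :=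
  g (W.comap (μ w)) h1 (fun a _ b _ => by
    rw [Submodule.mem_comap, h.mm _ hw _ (mem_D _ _ _)]
    exact W.zero_mem) y

/-- the letters made of generators -/
def lt (v : X → B) (i : X × Option X) : B × Option B := (v i.1, i.2.map v)

theorem gensU (h : Base μ) (g : Gen μ v) {w : B} (hw : w ∈ D μ) {W : Submodule F B}
    (h1 : ∀ i, U μ (lt v i) w ∈ W) (p : B × Option B) : U μ p w ∈ W := by
  obtain ⟨c, _ | d⟩ := p
  · exact gensL h g hw (fun x => h1 (x, none)) c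
  · exact gensR h g (mem_D _ _ _) (fun x' =>
      gensL h g hw (W := W.comap (μ.flip (v x'))) (fun x => h1 (x, some x')) c) d

/-- right multiplication by a list of elements, the head last -/
def rb (μ : B →ₗ[F] B →ₗ[F] B) (w : B) : List B → B
  | [] => w
  | y :: l => μ (rb μ w l) y

theorem rb_D {w : B} (hw : w ∈ D μ) : ∀ l, rb μ w l ∈ D μ
  | [] => hw
  | _ :: _ => mem_D _ _ _

theorem rb_dup [CharZero F] (h : Base μ) {w : B} (hw : w ∈ D μ) (y : B) :
    ∀ l : List B, y ∈ l → μ (rb μ w l) y = 0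
  | [], hy => by simp at hy
  | z :: l, hy => by
    rcases List.mem_cons.1 hy with rfl | hy
    · have h1 := h.sk _ (rb_D hw l) y y
      have h2 : (2 : F) • μ (μ (rb μ w l) y) y = 0 := by
        rw [two_smul]; exact add_eq_zero_iff_eq_neg.2 h1
      exact (smul_eq_zero.1 h2).resolve_left two_ne_zero
    · rw [rb, h.sk _ (rb_D hw l), rb_dup h hw y l hy]; simp

/-- the span of the runs of generators without repetition that start in `T` -/
def Run (μ : B →ₗ[F] B →ₗ[F] B) (v : X → B) (T : Set B) (p : ℕ → Prop) : Submodule F B :=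
  Submodule.span F {z | ∃ w ∈ T, ∃ l : List X, l.Nodup ∧ p l.length ∧ z = rb μ w (l.map v)}

theorem Run_le {T : Set B} {p : ℕ → Prop} {W : Submodule F B} (h1 : T ⊆ W)
    (h2 : ∀ w ∈ W, ∀ x, μ w (v x) ∈ W) : Run μ v T p ≤ W := by
  refine Submodule.span_le.2 ?_
  rintro _ ⟨w, hw, l, h3, h4, rfl⟩
  clear h3 h4
  induction l with
  | nil => exact h1 hw
  | cons x l ih => exact h2 _ ih x

theorem Run_D {T : Set B} {p : ℕ → Prop} (hT : T ⊆ D μ) : Run μ v T p ≤ D μ :=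
  Run_le hT fun _ _ _ => mem_D _ _ _

theorem mem_Run {T : Set B} {p : ℕ → Prop} (hp : p 0) {w : B} (hw : w ∈ T) : w ∈ Run μ v T p :=
  Submodule.subset_span ⟨w, hw, [], List.nodup_nil, hp, rfl⟩

theorem Run_fg [Fintype X] {T : Set B} (hT : T.Finite) (p : ℕ → Prop) : (Run μ v T p).FG := by
  refine Submodule.fg_span (((hT.prod (List.finite_length_le X (Fintype.card X))).image
    fun z => rb μ z.1 (z.2.map v)).subset ?_)
  rintro _ ⟨w, hw, l, h3, -, rfl⟩
  exact ⟨(w, l), ⟨hw, h3.length_le_card⟩, rfl⟩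

theorem Run_R [CharZero F] (h : Base μ) (g : Gen μ v) {T : Set B} (hT : T ⊆ D μ)
    {p p' : ℕ → Prop} (hp : ∀ n, p n → p' (n + 1)) (y : B) {z : B} (hz : z ∈ Run μ v T p) :
    μ z y ∈ Run μ v T p' := by
  refine (Submodule.span_le.2 ?_ : Run μ v T p ≤ (Run μ v T p').comap (μ.flip y)) hz
  rintro _ ⟨w, hw, l, h3, h4, rfl⟩
  change μ (rb μ w (l.map v)) y ∈ Run μ v T p'
  refine gensR h g (rb_D (hT hw) _) (fun x => ?_) y
  by_cases hx : x ∈ l
  · rw [rb_dup h (hT hw) _ _ (List.mem_map_of_mem hx)]; exact zero_mem _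
  · exact Submodule.subset_span ⟨w, hw, x :: l, List.nodup_cons.2 ⟨hx, h3⟩, hp _ h4, rfl⟩

theorem rb_long [CharZero F] [Fintype X] (h : Base μ) (g : Gen μ v) {w : B} (hw : w ∈ D μ)
    (l : List B) (hl : Fintype.card X < l.length) : rb μ w l = 0 := by
  have h1 : ∀ l : List B, rb μ w l ∈ Run μ v {w} (· = l.length) := fun l => by
    induction l with
    | nil => exact mem_Run (p := (· = 0)) rfl (Set.mem_singleton w)
    | cons y l ih =>
      exact Run_R h g (p := (· = l.length)) (p' := (· = l.length + 1))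
        (Set.singleton_subset_iff.2 hw) (fun n hn => congrArg (· + 1) hn) y ih
  refine (Submodule.span_le.2 ?_ : Run μ v {w} (· = l.length) ≤ ⊥) (h1 l)
  rintro _ ⟨_, -, l', h3, h4, -⟩
  have := h3.length_le_card
  omega

/-- the span of the initial runs -/
def S (μ : B →ₗ[F] B →ₗ[F] B) (v : X → B) : Submodule F B :=
  Run μ v (Set.range fun z : X × X => μ (v z.1) (v z.2)) fun _ => True

theorem S_D : S μ v ≤ D μ := Run_D (by rintro _ ⟨z, rfl⟩; exact mem_D _ _ _)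

theorem S_R [CharZero F] (h : Base μ) (g : Gen μ v) (y : B) {z : B} (hz : z ∈ S μ v) :
    μ z y ∈ S μ v :=
  Run_R h g (by rintro _ ⟨z, rfl⟩; exact mem_D _ _ _) (fun _ _ => trivial) y hz

theorem S_fg [Fintype X] : (S μ v).FG := Run_fg (Set.finite_range _) _

/-- the span of the values of letters on products, where one entry lies in `K` -/
def K1 (μ : B →ₗ[F] B →ₗ[F] B) (K : Submodule F B) : Submodule F B :=
  Submodule.span F {z | ∃ w ∈ D μ, ∃ p : B × Option B,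
    (w ∈ K ∨ p.1 ∈ K ∨ ∃ d ∈ K, p.2 = some d) ∧ z = U μ p w}

theorem mem_K1 {K : Submodule F B} {w : B} (hw : w ∈ D μ) (p : B × Option B)
    (hp : w ∈ K ∨ p.1 ∈ K ∨ ∃ d ∈ K, p.2 = some d) : U μ p w ∈ K1 μ K :=
  Submodule.subset_span ⟨w, hw, p, hp, rfl⟩

theorem K1_D {K : Submodule F B} : K1 μ K ≤ D μ :=
  Submodule.span_le.2 (by rintro _ ⟨w, -, p, -, rfl⟩; exact U_D _ _ _)

theorem K1_mono {K : Submodule F B} : K1 μ K ≤ K1 μ ⊤ :=
  Submodule.span_le.2 (by rintro _ ⟨w, hw, p, -, rfl⟩; exact mem_K1 hw p (Or.inl trivial))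

/-- two-sided ideals for the product `μ` -/
def Idl (μ : B →ₗ[F] B →ₗ[F] B) (K : Submodule F B) : Prop :=
  ∀ y, ∀ z ∈ K, μ y z ∈ K ∧ μ z y ∈ K

theorem U_mem {K : Submodule F B} (hK : Idl μ K) {w : B} (hw : w ∈ K) (p : B × Option B) :
    U μ p w ∈ K := by
  obtain ⟨c, _ | d⟩ := p
  · exact (hK _ _ hw).1
  · exact (hK _ _ (hK _ _ hw).1).2

theorem K1_le {K : Submodule F B} (hK : Idl μ K) : K1 μ K ≤ K := by
  refine Submodule.span_le.2 ?_
  rintro _ ⟨w, -, ⟨c, d⟩, hp, rfl⟩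
  rcases hp with hp | hp | ⟨d', hd, rfl⟩
  · exact U_mem hK hp _
  · rcases d with _ | d
    · exact (hK _ _ hp).2
    · exact (hK _ _ (hK _ _ hp).2).2
  · exact (hK _ _ hd).1

theorem K1_R (h : Base μ) {K : Submodule F B} (y : B) {z : B} (hz : z ∈ K1 μ K) :
    μ z y ∈ K1 μ K := by
  refine (Submodule.span_le.2 ?_ : K1 μ K ≤ (K1 μ K).comap (μ.flip y)) hz
  rintro _ ⟨w, hw, ⟨c, _ | d⟩, hp, rfl⟩
  · exact mem_K1 hw (c, some y) (hp.imp_right fun hp => Or.inl (hp.resolve_right (by simp)))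
  · change μ (μ (μ c w) d) y ∈ K1 μ K
    rw [h.lrr _ hw]; exact zero_mem _

theorem K1_RK (h : Base μ) {K : Submodule F B} {y : B} (hy : y ∈ K) {z : B} (hz : z ∈ K1 μ ⊤) :
    μ z y ∈ K1 μ K := by
  refine (Submodule.span_le.2 ?_ : K1 μ ⊤ ≤ (K1 μ K).comap (μ.flip y)) hz
  rintro _ ⟨w, hw, ⟨c, _ | d⟩, -, rfl⟩
  · exact mem_K1 hw (c, some y) (Or.inr (Or.inr ⟨y, hy, rfl⟩))
  · change μ (μ (μ c w) d) y ∈ K1 μ K
    rw [h.lrr _ hw]; exact zero_mem _

theorem K1_RR (h : Base μ) (y y' : B) {z : B} (hz : z ∈ K1 μ ⊤) : μ (μ z y) y' = 0 := by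
  refine (Submodule.span_le.2 ?_ : K1 μ ⊤ ≤ LinearMap.ker (μ.flip y' ∘ₗ μ.flip y)) hz
  rintro _ ⟨w, hw, ⟨c, _ | d⟩, -, rfl⟩
  · exact h.lrr _ hw _ _ _
  · change μ (μ (μ (μ c w) d) y) y' = 0
    rw [h.lrr _ hw]; simp

theorem K1_idl (h : Base μ) {K : Submodule F B} (hK : Idl μ K) : Idl μ (K1 μ K) :=
  fun y _ hz => ⟨mem_K1 (K1_D hz) (y, none) (Or.inl (K1_le hK hz)), K1_R h y hz⟩

theorem dec [CharZero F] (h : Base μ) (g : Gen μ v) {Y : Submodule F B} (h1 : S μ v ≤ Y)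
    (h2 : ∀ w ∈ D μ, w ∈ Y → ∀ p, U μ p w ∈ Y) : D μ ≤ Y := by
  set Z := S μ v ⊔ Submodule.span F {z | ∃ w ∈ D μ, w ∈ Y ∧ ∃ p, z = U μ p w} with hZ
  have a1 : Z ≤ Y := sup_le h1 (Submodule.span_le.2 (by
    rintro _ ⟨w, hw, hw', p, rfl⟩; exact h2 w hw hw' p))
  have a2 : Z ≤ D μ := sup_le S_D (Submodule.span_le.2 (by
    rintro _ ⟨w, -, -, p, rfl⟩; exact U_D _ _ _))
  have a3 : ∀ y, Z ≤ Z.comap (μ y) := fun y z hz =>
    Submodule.mem_sup_right (Submodule.subset_span ⟨z, a2 hz, a1 hz, (y, none), rfl⟩)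
  have a4 : ∀ y, Z ≤ Z.comap (μ.flip y) := fun y => sup_le
    (fun z hz => Submodule.mem_sup_left (S_R h g y hz)) (Submodule.span_le.2 (by
      rintro _ ⟨w, hw, hw', ⟨c, _ | d⟩, rfl⟩
      · exact Submodule.mem_sup_right (Submodule.subset_span ⟨w, hw, hw', (c, some y), rfl⟩)
      · change μ (μ (μ c w) d) y ∈ Z
        rw [h.lrr _ hw]; exact zero_mem _))
  have a5 : ∀ a ∈ Submodule.span F (Set.range v) ⊔ Z, ∀ b ∈ Submodule.span F (Set.range v) ⊔ Z,
      μ a b ∈ Z := fun a ha b =>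
    (sup_le (Submodule.span_le.2 (by
      rintro _ ⟨x, rfl⟩
      refine (sup_le (Submodule.span_le.2 ?_) (a4 (v x)) :
        Submodule.span F (Set.range v) ⊔ Z ≤ Z.comap (μ.flip (v x))) ha
      rintro _ ⟨x', rfl⟩
      exact Submodule.mem_sup_left (mem_Run trivial ⟨(x', x), rfl⟩))) (a3 a) :
      Submodule.span F (Set.range v) ⊔ Z ≤ Z.comap (μ a)) (x := b)
  have a6 := g (Submodule.span F (Set.range v) ⊔ Z)
    (fun x => Submodule.mem_sup_left (Submodule.subset_span ⟨x, rfl⟩))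
    fun a ha b hb => Submodule.mem_sup_right (a5 a ha b hb)
  exact D_le fun a b => a1 (a5 a (a6 a) b (a6 b))

theorem D_split [CharZero F] (h : Base μ) (g : Gen μ v) : D μ ≤ S μ v ⊔ K1 μ ⊤ :=
  dec h g le_sup_left fun _ hw _ p => Submodule.mem_sup_right (mem_K1 hw p (Or.inl trivial))

theorem rb_S [CharZero F] (h : Base μ) (g : Gen μ v) {w : B} (hw : w ∈ D μ) :
    ∀ l : List B, 2 ≤ l.length → rb μ w l ∈ S μ v
  | [], hl => by simp at hl
  | [_], hl => by simp at hl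
  | [y, y'], _ => by
    obtain ⟨s, hs, z, hz, rfl⟩ := Submodule.mem_sup.1 (D_split h g hw)
    simp only [rb, map_add, LinearMap.add_apply, K1_RR h _ _ hz, add_zero]
    exact S_R h g _ (S_R h g _ hs)
  | y :: y' :: y'' :: l, _ => S_R h g y (rb_S h g hw (y' :: y'' :: l) (by simp))

/-- an exhausting sequence of finite-dimensional subspaces -/
def Fil (μ : B →ₗ[F] B →ₗ[F] B) (v : X → B) : ℕ → Submodule F B
  | 0 => S μ v
  | m + 1 => Fil μ v m ⊔ ⨆ i, (Fil μ v m).map (U μ (lt v i))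

theorem Fil_D : ∀ m, Fil μ v m ≤ D μ
  | 0 => S_D
  | m + 1 => sup_le (Fil_D m) (iSup_le fun _ => Submodule.map_le_iff_le_comap.2
      fun _ _ => U_D _ _ _)

theorem Fil_fg [Fintype X] : ∀ m, (Fil μ v m).FG
  | 0 => S_fg
  | m + 1 => (Fil_fg m).sup (Submodule.fg_iSup _ fun _ => (Fil_fg m).map _)

theorem Fil_mono : Monotone (Fil μ v) := monotone_nat_of_le_succ fun _ => le_sup_left

theorem Fil_U (h : Base μ) (g : Gen μ v) {m : ℕ} {w : B} (hw : w ∈ Fil μ v m)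
    (p : B × Option B) : U μ p w ∈ Fil μ v (m + 1) :=
  gensU h g (Fil_D m hw) (fun i => Submodule.mem_sup_right
    (Submodule.mem_iSup_of_mem i (Submodule.mem_map_of_mem hw))) p

end Pool.Agent.Lib.MP_038c09_al.Bo
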