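import Pool.Agent.Lib.MP_038c09_al.Bo.B2

/-!
Residual finiteness in the base variety, with finite-dimensional families of extra relators.
-/

namespace Pool.Agent.Lib.MP_038c09_al.Bo

variable {F : Type} [Field F] {B : Type} [AddCommGroup B] [Module F B] {X : Type}
  {μ : B →ₗ[F] B →ₗ[F] B} {v : X → B} {l r : B →ₗ[F] B} {θ : X × Option X → B →ₗ[F] B}

theorem l_D (o : Ops μ v (lt v) l r θ) {w : B} (hw : w ∈ D μ) : l w = 0 := D_eq l 0 o.lm hw

theorem sub_l (g : Gen μ v) (o : Ops μ v (lt v) l r θ) (a : B) : a - l a ∈ D μ :=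
  g ((D μ).comap ((LinearMap.id : B →ₗ[F] B) - l)) (fun x => by simp [o.lv])
    (fun a _ b _ => by simpa [o.lm] using mem_D μ a b) a

theorem r_D (g : Gen μ v) (o : Ops μ v (lt v) l r θ) (a : B) : r a ∈ D μ :=
  g ((D μ).comap r) (fun x => by simp [o.rv])
    (fun a _ b _ => by
      rw [Submodule.mem_comap, o.rm]; exact add_mem (mem_D _ _ _) (mem_D _ _ _)) a

theorem t_D (g : Gen μ v) (o : Ops μ v (lt v) l r θ) (i : X × Option X) (a : B) : θ i a ∈ D μ :=
  g ((D μ).comap (θ i)) (fun x => by simp [o.tv])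
    (fun a _ b _ => by
      rw [Submodule.mem_comap, o.tm]
      exact add_mem (sub_mem (add_mem (add_mem (U_D _ _ _) (mem_D _ _ _)) (U_D _ _ _))
        (mem_D _ _ _)) (mem_D _ _ _)) a

theorem lL (h : Base μ) (g : Gen μ v) (o : Ops μ v (lt v) l r θ) {w : B} (hw : w ∈ D μ) (y : B) :
    μ (l y) w = μ y w := by
  have := h.mm _ (sub_l g o y) _ hw
  rw [map_sub, LinearMap.sub_apply, sub_eq_zero] at this
  exact this.symm

theorem lR (h : Base μ) (g : Gen μ v) (o : Ops μ v (lt v) l r θ) {w : B} (hw : w ∈ D μ) (y : B) :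
    μ w (l y) = μ w y := by
  have := h.mm _ hw _ (sub_l g o y)
  rw [map_sub, sub_eq_zero] at this
  exact this.symm

theorem rL (o : Ops μ v (lt v) l r θ) {w : B} (hw : w ∈ D μ) (y : B) : r (μ y w) = 0 := by
  simp [o.rm, l_D o hw]

theorem tL (h : Base μ) (g : Gen μ v) (o : Ops μ v (lt v) l r θ) {w : B} (hw : w ∈ D μ) (y : B)
    (i : X × Option X) : θ i (μ y w) = μ y (θ i w) := by
  simp [o.tm, l_D o hw, lL h g o (t_D g o i w)]

theorem rR (h : Base μ) (g : Gen μ v) (o : Ops μ v (lt v) l r θ) {w : B} (hw : w ∈ D μ) (y : B) :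
    r (μ w y) = μ (r w) y := by
  simp [o.rm, l_D o hw, lR h g o (r_D g o w)]

theorem tR (h : Base μ) (g : Gen μ v) (o : Ops μ v (lt v) l r θ) {w : B} (hw : w ∈ D μ) (y : B)
    (i : X × Option X) : θ i (μ w y) =
      μ (θ i w) y + U μ (lt v i) (μ (r w) y) - μ (U μ (lt v i) (r w)) y := by
  simp [o.tm, l_D o hw, lR h g o (t_D g o i w), lR h g o (r_D g o w), lR h g o (U_D μ _ _)]

theorem rU (h : Base μ) (g : Gen μ v) (o : Ops μ v (lt v) l r θ) {w : B} (hw : w ∈ D μ)
    (p : B × Option B) : r (U μ p w) = 0 := by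
  obtain ⟨c, _ | d⟩ := p
  · exact rL o hw c
  · rw [U_some, rR h g o (mem_D _ _ _), rL o hw]; simp

theorem tU (h : Base μ) (g : Gen μ v) (o : Ops μ v (lt v) l r θ) {w : B} (hw : w ∈ D μ)
    (p : B × Option B) (i : X × Option X) : θ i (U μ p w) = U μ p (θ i w) := by
  obtain ⟨c, _ | d⟩ := p
  · exact tL h g o hw c i
  · rw [U_some, tR h g o (mem_D _ _ _), rL o hw, tL h g o hw]; simp

theorem tS (h : Base μ) (g : Gen μ v) (o : Ops μ v (lt v) l r θ) (i : X × Option X) {s : B}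
    (hs : s ∈ S μ v) : θ i s = U μ (lt v i) s := by
  have : S μ v ≤ D μ ⊓ LinearMap.eqLocus r LinearMap.id ⊓
      LinearMap.eqLocus (θ i) (U μ (lt v i)) := by
    refine Run_le ?_ fun w hw x => ⟨⟨mem_D _ _ _, ?_⟩, ?_⟩
    · rintro _ ⟨z, rfl⟩
      exact ⟨⟨mem_D _ _ _, by simp [o.rm, o.lv, o.rv]⟩, by simp [o.tm, o.lv, o.rv, o.tv]⟩
    · have : r w = w := hw.1.2
      simp [rR h g o hw.1.1, this]
    · have h1 : r w = w := hw.1.2
      have h2 : θ i w = U μ (lt v i) w := hw.2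
      simp [tR h g o hw.1.1, h1, h2]
  exact (this hs).2

theorem insert_eq [CharZero F] (h : Base μ) (g : Gen μ v) (o : Ops μ v (lt v) l r θ)
    (i : X × Option X) {w : B} (hw : w ∈ D μ) (y : B) : μ y (θ i w) = μ y (U μ (lt v i) w) := by
  have := dec h g (Y := ⨅ y, LinearMap.eqLocus (μ y ∘ₗ θ i) (μ y ∘ₗ U μ (lt v i)))
    (fun s hs => (Submodule.mem_iInf _).2 fun y => by simp [tS h g o i hs])
    (fun w hw hw' p => (Submodule.mem_iInf _).2 fun y => by
      change μ y (θ i (U μ p w)) = μ y (U μ (lt v i) (U μ p w))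
      rw [tU h g o hw, U_congr μ ((Submodule.mem_iInf _).1 hw') p, h.cc _ hw])
  exact (Submodule.mem_iInf _).1 (this hw) y

theorem K1_t [CharZero F] (h : Base μ) (g : Gen μ v) (o : Ops μ v (lt v) l r θ)
    {K : Submodule F B} (hK : Idl μ K) (i : X × Option X) : K1 μ K ≤ (K1 μ K).comap (θ i) := by
  refine Submodule.span_le.2 ?_
  rintro _ ⟨w, hw, p, hp, rfl⟩
  change θ i (U μ p w) ∈ K1 μ K
  rw [tU h g o hw]
  rcases hp with hp | hp
  · rw [U_congr μ (insert_eq h g o i hw)]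
    exact mem_K1 (U_D _ _ _) p (Or.inl (U_mem hK hp _))
  · exact mem_K1 (t_D g o i w) p (Or.inr hp)

theorem K1_closed [CharZero F] [Fintype X] (h : Base μ) (g : Gen μ v) (o : Ops μ v (lt v) l r θ)
    {K : Submodule F B} (hK : Idl μ K) (a : B) (ha : a ∉ K1 μ K) :
    ∃ J : Submodule F B, K1 μ K ≤ J ∧ Idl μ J ∧ J.CoFG ∧ a ∉ J := by
  classical
  have top : Idl μ ⊤ := fun _ _ _ => ⟨trivial, trivial⟩
  obtain ⟨T, hT⟩ := S_fg (μ := μ) (v := v)
  have hTS : ∀ s ∈ T, s ∈ S μ v := fun s hs => hT ▸ Submodule.subset_span hs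
  obtain ⟨J, j1, j2, j3, ⟨V, j4, j5⟩, j6⟩ := krull_sep θ (K1 μ K) (K1 μ ⊤) K1_mono
    (fun i x hx => K1_t h g o hK i hx) (fun i x hx => K1_t h g o top i hx)
    (fun i j x hx => by
      have : K1 μ ⊤ ≤ LinearMap.eqLocus (θ i ∘ₗ θ j) (θ j ∘ₗ θ i) := by
        refine Submodule.span_le.2 ?_
        rintro _ ⟨w, hw, p, -, rfl⟩
        change θ i (θ j (U μ p w)) = θ j (θ i (U μ p w))
        rw [tU h g o hw, tU h g o hw, tU h g o (t_D g o j w), tU h g o (t_D g o i w)]
        refine U_congr μ (fun y => ?_) p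
        rw [insert_eq h g o i (t_D g o j w), insert_eq h g o j (t_D g o i w),
          U_congr μ (insert_eq h g o j hw), U_congr μ (insert_eq h g o i hw), h.cc _ hw]
      rw [show θ i (θ j x) = θ j (θ i x) from this hx, sub_self]
      exact zero_mem _)
    ((fun z : B × (X × Option X) => U μ (lt v z.2) z.1) '' (T ×ˢ Set.univ))
    ((T.finite_toSet.prod Set.finite_univ).image _)
    (by rintro _ ⟨z, hz, rfl⟩; exact mem_K1 (S_D (hTS _ hz.1)) _ (Or.inl trivial))
    (fun W _ w2 w3 => by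
      have := dec h g (Y := ⨅ p, W.comap (U μ p))
        (hT ▸ Submodule.span_le.2 fun s hs => (Submodule.mem_iInf _).2 fun p =>
          gensU h g (S_D (hTS s hs)) (fun i => w2 ⟨(s, i), ⟨hs, trivial⟩, rfl⟩) p)
        (fun w hw hw' p => gensU h g hw (fun i => (Submodule.mem_iInf _).2 fun q => by
          change U μ q (U μ (lt v i) w) ∈ W
          rw [← U_congr μ (insert_eq h g o i hw), ← tU h g o hw]
          exact w3 i _ ((Submodule.mem_iInf _).1 hw' q)) p)
      refine Submodule.span_le.2 ?_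
      rintro _ ⟨w, hw, p, -, rfl⟩
      exact (Submodule.mem_iInf _).1 (this hw) p) a ha
  refine ⟨J, j1, fun y z hz => ⟨j6 (μ y) (fun x hx => (K1_idl h hK y x hx).1)
    (fun x hx => (K1_idl h top y x hx).1) (fun i x hx => ?_) z hz,
    j6 (μ.flip y) (fun x hx => (K1_idl h hK y x hx).2)
    (fun x hx => (K1_idl h top y x hx).2) (fun i x hx => ?_) z hz⟩, ?_, j3⟩
  · rw [tL h g o (K1_D hx), sub_self]; exact zero_mem _
  · have : r x = 0 := (Submodule.span_le.2 (by
      rintro _ ⟨w, hw, p, -, rfl⟩; exact rU h g o hw p) : K1 μ ⊤ ≤ LinearMap.ker r) hx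
    simp [tR h g o (K1_D hx), this]
  · refine (((Submodule.fg_span (Set.finite_range v)).sup (S_fg (μ := μ) (v := v))).sup
      j4).cofg_of_codisjoint (codisjoint_iff_le_sup.2 fun x _ => ?_)
    refine (sup_le ?_ ((D_split h g).trans (sup_le ?_ (j5.trans (sup_le le_sup_right ?_)))) :
      Submodule.span F (Set.range v) ⊔ D μ ≤ _) (gen_top g x)
    · exact le_sup_left.trans (le_sup_left.trans le_sup_left)
    · exact le_sup_right.trans (le_sup_left.trans le_sup_left)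
    · exact le_sup_right.trans le_sup_left

theorem pos_abs [CharZero F] [Fintype X] (h : Base μ) (g : Gen μ v) (o : Ops μ v (lt v) l r θ)
    {K : Submodule F B} (hK : Idl μ K) (G R : Set B) (hR : R.Finite) (hRK : R ⊆ K)
    (hG : ∀ z ∈ G, ∀ y, μ y z = 0 ∧ μ z y = 0) (V : Submodule F B) (hV : V.FG) (hGV : G ⊆ V)
    (hgen : ∀ W : Submodule F B, Idl μ W → G ⊆ W → R ⊆ W → K ≤ W) (a : B) (ha : a ∉ K) :
    ∃ J : Submodule F B, K ≤ J ∧ Idl μ J ∧ J.CoFG ∧ a ∉ J := by
  classical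
  obtain ⟨T, hT⟩ := S_fg (μ := μ) (v := v)
  set T0 : Set B := Set.image2 (fun y z => μ y z) (Set.range v ∪ T) R ∪
    Set.image2 (fun y z => μ z y) (Set.range v) R with hT0
  have t1 : T0.Finite := (((Set.finite_range v).union T.finite_toSet).image2 _ hR).union
    ((Set.finite_range v).image2 _ hR)
  have t2 : T0 ⊆ D μ := by
    rintro _ (⟨y, -, z, -, rfl⟩ | ⟨y, -, z, -, rfl⟩) <;> exact mem_D _ _ _
  have t3 : Run μ v T0 (fun _ => True) ≤ K := Run_le (by
    rintro _ (⟨y, -, z, hz, rfl⟩ | ⟨y, -, z, hz, rfl⟩)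
    exacts [(hK y z (hRK hz)).1, (hK y z (hRK hz)).2]) fun w hw x => (hK _ _ hw).2
  set W := (K1 μ K ⊔ Run μ v T0 fun _ => True) ⊔ (Submodule.span F R ⊔ Submodule.span F G)
    with hW
  have w1 : ∀ z ∈ K1 μ K, z ∈ W := fun z hz =>
    Submodule.mem_sup_left (Submodule.mem_sup_left hz)
  have w2 : ∀ z ∈ Run μ v T0 fun _ => True, z ∈ W := fun z hz =>
    Submodule.mem_sup_left (Submodule.mem_sup_right hz)
  have hI : Idl μ W := fun y z hz => by
    refine (sup_le (sup_le (fun z hz => ?_) fun z hz => ?_)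
      (sup_le (Submodule.span_le.2 fun z hz => ?_) (Submodule.span_le.2 fun z hz => ?_)) :
      W ≤ W.comap (μ y) ⊓ W.comap (μ.flip y)) hz
    · exact ⟨w1 _ (K1_idl h hK y z hz).1, w1 _ (K1_idl h hK y z hz).2⟩
    · exact ⟨w1 _ (mem_K1 (Run_D t2 hz) (y, none) (Or.inl (t3 hz))),
        w2 _ (Run_R h g t2 (fun _ _ => trivial) y hz)⟩
    · constructor
      · refine (sup_le (Submodule.span_le.2 fun y hy => ?_) ((D_split h g).trans
          (sup_le (hT ▸ Submodule.span_le.2 fun y hy => ?_) fun y hy => ?_)) :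
          Submodule.span F (Set.range v) ⊔ D μ ≤ W.comap (μ.flip z)) (gen_top g y)
        · exact w2 _ (mem_Run trivial (Or.inl ⟨y, Or.inl hy, z, hz, rfl⟩))
        · exact w2 _ (mem_Run trivial (Or.inl ⟨y, Or.inr hy, z, hz, rfl⟩))
        · exact w1 _ (K1_RK h (hRK hz) hy)
      · refine (sup_le (Submodule.span_le.2 fun y hy => ?_) fun y hy => ?_ :
          Submodule.span F (Set.range v) ⊔ D μ ≤ W.comap (μ z)) (gen_top g y)
        · exact w2 _ (mem_Run trivial (Or.inr ⟨y, hy, z, hz, rfl⟩))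
        · exact w1 _ (mem_K1 hy (z, none) (Or.inr (Or.inl (hRK hz))))
    · constructor
      · change μ y z ∈ W
        rw [(hG z hz y).1]; exact zero_mem _
      · change μ z y ∈ W
        rw [(hG z hz y).2]; exact zero_mem _
  have hKW : K ≤ W := hgen W hI
    (fun z hz => Submodule.mem_sup_right (Submodule.mem_sup_right (Submodule.subset_span hz)))
    (fun z hz => Submodule.mem_sup_right (Submodule.mem_sup_left (Submodule.subset_span hz)))
  obtain ⟨J, j1, j2, j3, j4⟩ := closed_of_fd (κ := B ⊕ B) (Sum.elim μ μ.flip) (K1 μ K) K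
    (K1_le hK) ((Run μ v T0 fun _ => True) ⊔ (Submodule.span F R ⊔ V))
    ((Run_fg t1 _).sup ((Submodule.fg_span hR).sup hV))
    (hKW.trans (by
      rw [hW, sup_assoc]
      exact sup_le_sup_left (sup_le_sup_left (sup_le_sup_left (Submodule.span_le.2 hGV) _) _) _))
    (by rintro (y | y) x hx; exacts [(hK y x hx).1, (hK y x hx).2])
    (fun a ha => by
      obtain ⟨J, j1, j2, j3, j4⟩ := K1_closed h g o hK a ha
      exact ⟨J, j1, by rintro (y | y) x hx; exacts [(j2 y x hx).1, (j2 y x hx).2], j3, j4⟩) a ha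
  exact ⟨J, j1, fun y z hz => ⟨j2 (Sum.inl y) z hz, j2 (Sum.inr y) z hz⟩, j3, j4⟩

end Pool.Agent.Lib.MP_038c09_al.Bo
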