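import Pool.Agent.Lib.MP_038c09_al.Bo.B3

/-!
The additional identities, and the varieties that are residually finite-dimensional.
-/

namespace Pool.Agent.Lib.MP_038c09_al.Bo

variable {F : Type} [Field F] {B : Type} [AddCommGroup B] [Module F B] {X : Type}
  {μ : B →ₗ[F] B →ₗ[F] B} {v : X → B}

/-- a run of right multiplications -/
def runm : List ℕ → FreeMagma ℕ
  | [] => o 0 * o 1
  | i :: l => runm l * o i

/-- a power of a left multiplication -/
def lpm (s : FreeMagma ℕ) : ℕ → FreeMagma ℕ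
  | 0 => s
  | a + 1 => o 2 * lpm s a

/-- the start of the additional identities -/
def st (k a : ℕ) : FreeMagma ℕ := lpm (runm (List.ofFn fun i : Fin (k + 2) => 7 + (i : ℕ))) a

/-- the additional identities -/
noncomputable def gm (F : Type) [Field F] (k a : ℕ) : FA F ℕ :=
  mon F ((o 5 * ((o 3 * st k a) * o 4)) * o 6) - mon F ((o 3 * ((o 5 * st k a) * o 6)) * o 4)

/-- the final commutator -/
def En (μ : B →ₗ[F] B →ₗ[F] B) (c c' d d' : B) : B →ₗ[F] B :=
  U μ (d, some d') ∘ₗ U μ (c, some c') - U μ (c, some c') ∘ₗ U μ (d, some d')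

theorem evm_runm (φ : ℕ → B) : ∀ l, evm μ φ (runm l) = rb μ (μ (φ 0) (φ 1)) (l.map φ)
  | [] => rfl
  | i :: l => congrArg (fun z => μ z (φ i)) (evm_runm φ l)

theorem evm_lpm (φ : ℕ → B) (s : FreeMagma ℕ) :
    ∀ a, evm μ φ (lpm s a) = (μ (φ 2))^[a] (evm μ φ s)
  | 0 => rfl
  | a + 1 => by rw [Function.iterate_succ_apply', ← evm_lpm φ s a]; rfl

theorem evL_gm (φ : ℕ → B) (k a : ℕ) : evL μ φ (gm F k a) = En μ (φ 3) (φ 4) (φ 5) (φ 6)
    ((μ (φ 2))^[a] (rb μ (μ (φ 0) (φ 1)) (List.ofFn fun i : Fin (k + 2) => φ (7 + i)))) := by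
  simp only [gm, map_sub, evL_mon, evm_mul, evm_of, st, evm_lpm, evm_runm, List.map_ofFn]
  rfl

theorem iter_D {w : B} (hw : w ∈ D μ) (y : B) : ∀ a, (μ y)^[a] w ∈ D μ
  | 0 => hw
  | a + 1 => by rw [Function.iterate_succ_apply']; exact mem_D _ _ _

theorem En_ann (h : Base μ) {w : B} (hw : w ∈ D μ) (c c' d d' y : B) :
    μ y (En μ c c' d d' w) = 0 ∧ μ (En μ c c' d d' w) y = 0 := by
  constructor
  · simp only [En, LinearMap.sub_apply, LinearMap.comp_apply, map_sub]
    rw [h.cc _ hw, sub_self]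
  · simp only [En, LinearMap.sub_apply, LinearMap.comp_apply, map_sub, U_some]
    rw [h.lrr _ (mem_D _ _ _), h.lrr _ (mem_D _ _ _), sub_self]

theorem iter_Fil (h : Base μ) (g : Gen μ v) {w : B} (hw : w ∈ S μ v) (y : B) :
    ∀ a, (μ y)^[a] w ∈ Fil μ v a
  | 0 => hw
  | a + 1 => by
    rw [Function.iterate_succ_apply']; exact Fil_U h g (iter_Fil h g hw y a) (y, none)

/-- the identities attached to a set of pairs -/
def IE (F : Type) [Field F] (E : Set (ℕ × ℕ)) : Set (FA F ℕ) :=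
  baseSet F ∪ {f | ∃ z ∈ E, f = gm F z.1 z.2}

theorem tval_mono {I I' : Set (FA F ℕ)} (h : I ⊆ I') : TVal I X ⊆ TVal I' X :=
  fun _ ⟨f, hf, e⟩ => ⟨f, h hf, e⟩

theorem idealGen_mono {S S' : Set (FA F X)} (h : S ⊆ S') : idealGen S ≤ idealGen S' :=
  idealGen_le (isIdeal_idealGen _) (h.trans (subset_idealGen _))

theorem isIdeal_comap (q : FA F X →ₗ[F] B) (hmul : ∀ f g, q (f * g) = μ (q f) (q g))
    {W : Submodule F B} (hW : Idl μ W) : IsIdeal (W.comap q) := fun x y hy => by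
  simp only [Submodule.mem_comap, hmul]
  exact hW _ _ hy

theorem pos [CharZero F] {E : Set (ℕ × ℕ)} (hE : ∀ k, {a | (k, a) ∈ E}.Finite) :
    IsRFDVariety (IE F E) := by
  intro n R a ha
  set K0 := idealGen (TVal (baseSet F) (Fin n)) with hK0
  set K := idealGen (TVal (IE F E) (Fin n) ∪ ↑R) with hK
  have k0 : IsIdeal K0 := isIdeal_idealGen _
  have k1 : K0 ≤ K := idealGen_mono ((tval_mono Set.subset_union_left).trans Set.subset_union_left)
  have hmul := mkQ_mul K0 k0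
  have hs := K0.mkQ_surjective
  have hk := K0.ker_mkQ
  generalize quotMul K0 k0 = μ at hmul
  generalize K0.mkQ = q at hmul hs hk
  have b0 : TVal (baseSet F) (Fin n) ⊆ LinearMap.ker q := by
    rw [hk]; exact subset_idealGen _
  have h : Base μ := (base_iff μ).1 (holds_of μ q hmul hs b0)
  have g := gen_of μ q hmul hs
  obtain ⟨l, r, θ, o⟩ := exists_ops h (lt fun x => q (FreeNonUnitalNonAssocAlgebra.of F x)) q
    hmul hs hk.le
  obtain ⟨M, hM⟩ := ((Set.finite_le_nat n).biUnion fun k _ => hE k).bddAbove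
  obtain ⟨J, j1, j2, j3, j4⟩ := pos_abs h g o (K := K.map q) (by
      rintro y _ ⟨z, hz, rfl⟩
      obtain ⟨y, rfl⟩ := hs y
      rw [← hmul, ← hmul]
      exact ⟨⟨_, (isIdeal_idealGen _ y z hz).1, rfl⟩, ⟨_, (isIdeal_idealGen _ y z hz).2, rfl⟩⟩)
    (q '' TVal {f | ∃ z ∈ E, f = gm F z.1 z.2} (Fin n)) (q '' R) (R.finite_toSet.image _)
    (by rintro _ ⟨z, hz, rfl⟩; exact ⟨z, subset_idealGen _ (Or.inr hz), rfl⟩)
    (by
      rintro _ ⟨_, ⟨_, ⟨z, -, rfl⟩, φ, rfl⟩, rfl⟩ y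
      rw [hom_lift μ q hmul, evL_gm]
      exact En_ann h (iter_D (rb_D (mem_D _ _ _) _) _ _) _ _ _ _ _)
    (Fil μ (fun x => q (FreeNonUnitalNonAssocAlgebra.of F x)) (M + 1 + 1)) (Fil_fg _)
    (by
      rintro _ ⟨_, ⟨_, ⟨z, hz, rfl⟩, φ, rfl⟩, rfl⟩
      rw [hom_lift μ q hmul, evL_gm]
      by_cases hz' : z.1 ≤ n
      · have := Fil_mono (hM (Set.mem_biUnion (t := fun k => {a | (k, a) ∈ E}) hz' hz))
          (iter_Fil h g (rb_S h g (mem_D μ (q (φ 0)) (q (φ 1)))
            (List.ofFn fun i : Fin (z.1 + 2) => q (φ (7 + i))) (by simp)) (q (φ 2)) z.2)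
        exact sub_mem (Fil_U h g (Fil_U h g this (_, some _)) (_, some _))
          (Fil_U h g (Fil_U h g this (_, some _)) (_, some _))
      · rw [rb_long h g (mem_D _ _ _) _ (by simp; omega), Function.iterate_fixed (map_zero _),
          map_zero]
        exact zero_mem _)
    (fun W w1 w2 w3 => Submodule.map_le_iff_le_comap.2 (idealGen_le (isIdeal_comap q hmul w1) (by
      rintro z (⟨f, hf | hf, e⟩ | hz)
      · have : q z = 0 := b0 ⟨f, hf, e⟩
        change q z ∈ W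
        rw [this]; exact zero_mem _
      · exact w2 ⟨z, ⟨f, hf, e⟩, rfl⟩
      · exact w3 ⟨z, hz, rfl⟩))) (q a)
    (fun ⟨z, hz, e⟩ => ha (by
      have : a - z ∈ K := k1 (hk ▸ LinearMap.sub_mem_ker_iff.2 e.symm)
      simpa using K.add_mem this hz))
  refine ⟨J.comap q, isIdeal_comap q hmul j2, Submodule.map_le_iff_le_comap.1 j1, ?_, j4⟩
  have := Submodule.CoFG.ker (J.mkQ ∘ₗ q)
  rwa [LinearMap.ker_comp, Submodule.ker_mkQ] at this

theorem neg_abs [Module.Finite F B] (h : Base μ) (x u : B) {n : B} (hn : n ∈ D μ)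
    (hrel : ∀ y, μ y (μ x (U μ (x, some x) n)) = μ y n)
    (hE : ∀ L, ∃ m, ∀ a, m ≤ a → a ≤ m + L → En μ x x x u ((μ x)^[a] n) = 0) :
    En μ x x x u (U μ (x, some x) n) = 0 := by
  set e := En μ x x x u with he
  set s := U μ (x, some x) with hs
  obtain ⟨j, hj⟩ := IsArtinian.monotone_stabilizes (R := F) (M := B)
    ⟨fun j => OrderDual.toDual (⨅ i ≤ j, LinearMap.ker (e ∘ₗ (μ x) ^ i)), fun j j' hh =>
      (biInf_mono fun i hi => le_trans hi hh :
        (⨅ i ≤ j', LinearMap.ker (e ∘ₗ (μ x) ^ i)) ≤ ⨅ i ≤ j, LinearMap.ker (e ∘ₗ (μ x) ^ i))⟩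
  set W := ⨅ i ≤ j, LinearMap.ker (e ∘ₗ (μ x) ^ i) with hW
  have m1 : ∀ j' z, z ∈ (⨅ i ≤ j', LinearMap.ker (e ∘ₗ (μ x) ^ i)) ↔
      ∀ i ≤ j', e ((μ x)^[i] z) = 0 := fun j' z => by
    simp [Submodule.mem_iInf, Module.End.pow_apply]
  have w1 : ∀ z ∈ W, μ x z ∈ W := fun z hz => by
    have h1 : W = ⨅ i ≤ j + 1, LinearMap.ker (e ∘ₗ (μ x) ^ i) := hj (j + 1) j.le_succ
    exact (m1 j _).2 fun i hi => (m1 _ z).1 (h1 ▸ hz) (i + 1) (Nat.succ_le_succ hi)
  have w2 : ∀ i, ∀ z ∈ W, (μ x)^[i] z ∈ W := fun i => by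
    induction i with
    | zero => exact fun z hz => hz
    | succ i ih => exact fun z hz => ih _ (w1 z hz)
  have w3 : ∀ z z', (∀ y, μ y z = μ y z') → z ∈ W → z' ∈ W := fun z z' hh hz =>
    (m1 j _).2 fun i hi => by
      rw [← (m1 j _).1 hz i hi]
      rcases i with _ | i
      · simp [he, En, hh]
      · simp [hh]
  obtain ⟨r, hr⟩ := monotone_stabilizes_iff_noetherian.2 (inferInstance : IsNoetherian F B)
    ⟨fun r => W.comap ((μ x) ^ r), monotone_nat_of_le_succ fun r z hz => by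
      rw [Submodule.mem_comap, pow_succ']; exact w1 _ hz⟩
  have r1 : ∀ r' z, (μ x)^[r'] z ∈ W → (μ x)^[r] z ∈ W := fun r' z hz => by
    have h1 : W.comap ((μ x) ^ r) = W.comap ((μ x) ^ (r + r')) := hr _ (Nat.le_add_right _ _)
    have h2 : z ∈ W.comap ((μ x) ^ (r + r')) := by
      rw [Submodule.mem_comap, Module.End.pow_apply, Function.iterate_add_apply]
      exact w2 _ _ hz
    rwa [← h1, Submodule.mem_comap, Module.End.pow_apply] at h2
  have sD : ∀ i, s^[i] n ∈ D μ := fun i => by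
    rcases i with _ | i
    · exact hn
    · rw [Function.iterate_succ_apply']; exact U_D _ _ _
  have c1 : ∀ i y, μ y (μ x (s^[i + 1] n)) = μ y (s^[i] n) := fun i => by
    induction i with
    | zero => exact hrel
    | succ i ih =>
      intro y
      rw [Function.iterate_succ_apply' _ (i + 1)]
      refine (h.cc _ (sD (i + 1)) (x, none) (x, some x) y).trans ?_
      rw [Function.iterate_succ_apply' _ i]
      exact congrArg (μ y) (U_congr μ (by simpa [Function.iterate_succ_apply'] using ih) _)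
  have c2 : ∀ i k y, μ y ((μ x)^[i] (s^[i + k] n)) = μ y (s^[k] n) := fun i => by
    induction i with
    | zero => simp
    | succ i ih =>
      intro k y
      rw [← ih k y, Function.iterate_succ_apply, show i + 1 + k = i + k + 1 by omega]
      rcases i with _ | i
      · exact c1 _ y
      · rw [Function.iterate_succ_apply, Function.iterate_succ_apply (μ x) i (s^[i + 1 + k] n),
          c1]
  obtain ⟨m, hm⟩ := hE (j + 1)
  have a1 : (μ x)^[m + 1] n ∈ W := (m1 j _).2 fun i hi => by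
    rw [← Function.iterate_add_apply]; exact hm _ (by omega) (by omega)
  have a2 : (μ x)^[m + 1 + (r + 1)] (s^[r + 1] n) ∈ W := by
    rw [Function.iterate_add_apply, Function.iterate_succ_apply]
    have := c2 (r + 1) 0 x
    rw [add_zero] at this
    rw [this]
    exact a1
  exact (m1 j _).1 (w3 _ _ (c2 r 1) (r1 _ _ a2)) 0 j.zero_le

end Pool.Agent.Lib.MP_038c09_al.Bo
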