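import Pool.Agent.Lib.MP_038c09_al.Bo.B4

/-!
The model that satisfies all additional identities, and the varieties that are not residually
finite-dimensional.
-/

namespace Pool.Agent.Lib.MP_038c09_al.Bo

open ExteriorAlgebra

variable {F : Type} [Field F] {Z : Type} [AddCommGroup Z] [Module F Z]

/-- the underlying space of the model -/
abbrev H (F Z : Type) [Field F] [AddCommGroup Z] [Module F Z] :=
  (F × F × Z) × ExteriorAlgebra F Z × (ℤ → F) × (ℤ → F) × F

/-- the class of an element in the module of two-sided sequences -/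
def cls (τ : ExteriorAlgebra F Z →ₗ[F] F) (h : H F Z) (i : ℤ) : F :=
  τ h.2.1 * (if i = 0 then 1 else 0) + h.2.2.1 i + h.2.2.2.1 i

/-- the product of the model -/
noncomputable def muH (τ : ExteriorAlgebra F Z →ₗ[F] F) : H F Z →ₗ[F] H F Z →ₗ[F] H F Z :=
  LinearMap.mk₂ F (fun a b => (0, (a.1.1 * b.1.1) • 1 + ι F b.1.2.2 * a.2.1,
      fun i => a.1.1 * cls τ b (i - 1), fun i => b.1.1 * a.2.2.1 (i + 2), b.1.2.1 * a.2.2.1 (-1)))
    (fun a a' b => by
      refine Prod.ext (by simp) (Prod.ext ?_ (Prod.ext ?_ (Prod.ext ?_ ?_)))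
      · simp only [Prod.fst_add, Prod.snd_add, add_mul, mul_add, add_smul]; abel
      · ext; simp [add_mul]
      · ext; simp [mul_add]
      · simp [mul_add])
    (fun c a b => by
      refine Prod.ext (by simp) (Prod.ext ?_ (Prod.ext ?_ (Prod.ext ?_ ?_)))
      · simp [mul_smul, mul_assoc]
      · ext; simp [mul_assoc]
      · ext; simp [mul_left_comm]
      · simp [mul_left_comm])
    (fun a b b' => by
      refine Prod.ext (by simp) (Prod.ext ?_ (Prod.ext ?_ (Prod.ext ?_ ?_)))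
      · simp only [Prod.fst_add, Prod.snd_add, add_mul, mul_add, add_smul, map_add]; abel
      · ext; simp only [cls, Prod.fst_add, Prod.snd_add, Pi.add_apply, map_add]; ring
      · ext; simp [add_mul]
      · simp [add_mul])
    (fun c a b => by
      refine Prod.ext (by simp) (Prod.ext ?_ (Prod.ext ?_ (Prod.ext ?_ ?_)))
      · simp [smul_smul, mul_left_comm]
      · ext
        simp only [cls, Prod.smul_fst, Prod.smul_snd, Pi.smul_apply, map_smul, smul_eq_mul]; ring
      · ext; simp [mul_assoc]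
      · simp [mul_assoc])

variable (τ : ExteriorAlgebra F Z →ₗ[F] F)

theorem muH_apply (a b : H F Z) : muH τ a b = (0, (a.1.1 * b.1.1) • 1 + ι F b.1.2.2 * a.2.1,
    fun i => a.1.1 * cls τ b (i - 1), fun i => b.1.1 * a.2.2.1 (i + 2),
      b.1.2.1 * a.2.2.1 (-1)) := rfl

theorem muH_D {w : H F Z} (hw : w ∈ D (muH τ)) : w.1 = 0 :=
  D_eq (LinearMap.fst F _ _) 0 (fun _ _ => rfl) hw

theorem muH_L (e : H F Z) {w : H F Z} (hw : w.1 = 0) :
    muH τ e w = (0, 0, fun i => e.1.1 * cls τ w (i - 1), 0, 0) := by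
  simp [muH_apply, hw]; rfl

theorem cls_L (e : H F Z) {w : H F Z} (hw : w.1 = 0) (i : ℤ) :
    cls τ (muH τ e w) i = e.1.1 * cls τ w (i - 1) := by
  simp [muH_L τ e hw, cls]

theorem muH_LR (c d : H F Z) {w : H F Z} (hw : w.1 = 0) : muH τ (muH τ c w) d =
    (0, 0, 0, fun i => d.1.1 * (c.1.1 * cls τ w (i + 1)), d.1.2.1 * (c.1.1 * cls τ w (-2))) := by
  rw [muH_L τ c hw, muH_apply]
  refine Prod.ext rfl (Prod.ext (by simp) (Prod.ext ?_ (Prod.ext ?_ rfl)))
  · ext; simp
  · ext i; simp [show i + 2 - 1 = i + 1 by ring]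

theorem cls_LR (c d : H F Z) {w : H F Z} (hw : w.1 = 0) (i : ℤ) :
    cls τ (muH τ (muH τ c w) d) i = d.1.1 * (c.1.1 * cls τ w (i + 1)) := by
  simp [muH_LR τ c d hw, cls]

theorem muH_base : Base (muH τ) := by
  refine ⟨fun w hw w' hw' => ?_, fun w hw c d => ?_, fun w hw c d e => ?_, fun w hw p q e => ?_⟩
  · rw [muH_L τ w (muH_D τ hw')]; simp [muH_D τ hw]; rfl
  · have := muH_D τ hw
    simp only [muH_apply, this, Prod.fst_zero, zero_mul, zero_smul, zero_add, mul_zero,
      Prod.neg_mk, neg_zero]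
    refine Prod.ext rfl (Prod.ext ?_ (Prod.ext ?_ (Prod.ext ?_ rfl)))
    · simp only [← mul_assoc]
      rw [eq_neg_of_add_eq_zero_left (ι_add_mul_swap d.1.2.2 c.1.2.2), neg_mul]
    · ext; simp
    · ext; simp
  · rw [muH_LR τ c d (muH_D τ hw)]; simp [muH_apply]; rfl
  · have := muH_D τ hw
    rw [muH_L τ e (muH_D τ (U_D _ _ _)), muH_L τ e (muH_D τ (U_D _ _ _))]
    refine Prod.ext rfl (Prod.ext rfl (Prod.ext ?_ rfl))
    ext i
    obtain ⟨c, _ | c'⟩ := p <;> obtain ⟨d, _ | d'⟩ := q <;>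
    simp only [U_none, U_some, cls_L τ _ this, cls_LR τ _ _ this,
      cls_L τ _ (muH_D τ (mem_D _ _ _)), cls_LR τ _ _ (muH_D τ (mem_D _ _ _))] <;> ring_nf

theorem En_H (c c' d d' : H F Z) {w : H F Z} (hw : w.1 = 0) :
    En (muH τ) c c' d d' w = (0, 0, 0, 0,
      (d'.1.2.1 * c'.1.1 - c'.1.2.1 * d'.1.1) * (c.1.1 * d.1.1 * cls τ w (-1))) := by
  simp only [En, LinearMap.sub_apply, LinearMap.comp_apply, U_some]
  rw [muH_LR τ d d' (muH_D τ (mem_D _ _ _)), muH_LR τ c c' (muH_D τ (mem_D _ (muH τ d w) _))]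
  simp only [cls_LR τ _ _ hw, Prod.mk_sub_mk, sub_zero]
  refine Prod.ext rfl (Prod.ext rfl (Prod.ext rfl (Prod.ext ?_ ?_)))
  · ext i; simp only [Pi.sub_apply, Pi.zero_apply]; ring
  · simp only [show (-2 : ℤ) + 1 = -1 by norm_num]; ring

theorem cls_run {w : H F Z} (hw : w ∈ D (muH τ)) (y y' : H F Z) (i : ℤ) :
    cls τ (muH τ (muH τ w y) y') i = τ (muH τ (muH τ w y) y').2.1 * if i = 0 then 1 else 0 := by
  simp [cls, muH_apply, muH_D τ hw]

theorem muH_gm (k a : ℕ) : Holds (muH τ) (gm F k a) := fun φ => by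
  have h0 := rb_D (mem_D (muH τ) (φ 0) (φ 1))
  have h1 : ∀ a : ℕ, ∀ i < 0, cls τ ((muH τ (φ 2))^[a] (rb (muH τ) (muH τ (φ 0) (φ 1))
      (List.ofFn fun i : Fin (k + 2) => φ (7 + i)))) i = 0 := fun a => by
    induction a with
    | zero =>
      intro i hi
      rw [List.ofFn_succ, List.ofFn_succ, Function.iterate_zero_apply, rb, rb, cls_run τ (h0 _),
        if_neg hi.ne, mul_zero]
    | succ a ih =>
      intro i hi
      rw [Function.iterate_succ_apply', cls_L τ _ (muH_D τ (iter_D (h0 _) _ _)), ih _ (by omega),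
        mul_zero]
  rw [evL_gm, En_H τ _ _ _ _ (muH_D τ (iter_D (h0 _) _ _)), h1 a _ (by omega)]
  simp

theorem rb_ext (w : H F Z) (hw : w ∈ D (muH τ)) (l : List (H F Z)) :
    (rb (muH τ) w l).2.1 = (l.map fun y => ι F y.1.2.2).prod * w.2.1 := by
  induction l with
  | nil => simp [rb]
  | cons y l ih => simp [rb, muH_apply, muH_D τ (rb_D hw l), ih, mul_assoc]

theorem exists_tau (k : ℕ) : ∃ τ : ExteriorAlgebra F (Fin k → F) →ₗ[F] F,
    τ (List.ofFn fun i => ι F (Pi.basisFun F (Fin k) i)).prod = 1 :=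
  ⟨liftAlternating (Function.update 0 k (Pi.basisFun F (Fin k)).det), by
    rw [← ιMulti_apply, liftAlternating_apply_ιMulti, Function.update_self,
      Module.Basis.det_self]⟩

theorem gm_apply {B : Type} [AddCommGroup B] [Module F B] {μ : B →ₗ[F] B →ₗ[F] B} {k a : ℕ}
    (h : Holds μ (gm F k a)) (x u : B) (z : Fin (k + 2) → B) :
    En μ x x x u ((μ x)^[a] (rb μ (μ x x) (List.ofFn z))) = 0 := by
  have := h fun j => if j = 6 then u else if h : 7 ≤ j ∧ j - 7 < k + 2 then z ⟨j - 7, h.2⟩ else x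
  rw [evL_gm] at this
  have e : (fun i : Fin (k + 2) => if 7 + (i : ℕ) = 6 then u else
      if h : 7 ≤ 7 + (i : ℕ) ∧ 7 + (i : ℕ) - 7 < k + 2 then z ⟨7 + i - 7, h.2⟩ else x) = z := by
    ext i
    rw [if_neg (by omega), dif_pos ⟨by omega, by omega⟩]
    exact congrArg z (Fin.ext (by simp))
  rw [e] at this
  simpa using this

theorem hom_rb {B X : Type} [AddCommGroup B] [Module F B] {μ : B →ₗ[F] B →ₗ[F] B}
    (q : FA F X →ₗ[F] B) (hmul : ∀ f g, q (f * g) = μ (q f) (q g)) (w : FA F X) :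
    ∀ l, q (rb (LinearMap.mul F _) w l) = rb μ (q w) (l.map q)
  | [] => rfl
  | y :: l => by rw [rb, LinearMap.mul_apply', hmul, hom_rb q hmul w l]; rfl

theorem neg [CharZero F] {E : Set (ℕ × ℕ)} {k : ℕ}
    (hE : ∀ L, ∃ m, ∀ a, m ≤ a → a ≤ m + L → (k, a) ∈ E) : ¬IsRFDVariety (IE F E) := by
  classical
  intro hR
  set g : Fin (k + 2 + 2) → FA F (Fin (k + 2 + 2)) := FreeNonUnitalNonAssocAlgebra.of F with hg
  set x := g 0 with hx
  set u := g (Fin.succ 0) with hu
  set n := rb (LinearMap.mul F _) (x * x) (List.ofFn fun i : Fin (k + 2) => g i.succ.succ) with hn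
  set s := (x * n) * x with hs
  obtain ⟨τ, hτ⟩ := exists_tau (F := F) (k + 2)
  obtain ⟨J, j1, j2, j3, j4⟩ := hR (k + 2 + 2)
    (Finset.univ.image fun i => g i * (x * s) - g i * n)
    ((x * ((x * s) * x)) * u - (x * ((x * s) * u)) * x) (fun hh => by
      set e := evL (muH τ) (Fin.cons ((1, 0, 0), 0) (Fin.cons ((0, 1, 0), 0) fun i =>
        ((0, 0, Pi.basisFun F (Fin (k + 2)) i), 0)) : Fin (k + 2 + 2) → H F (Fin (k + 2) → F))
        with he
      have em : ∀ f g, e (f * g) = muH τ (e f) (e g) := evL_mul _ _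
      have ex : e x = ((1, 0, 0), 0) := evL_of _ _ _
      have eu : e u = ((0, 1, 0), 0) := evL_of _ _ _
      have en : e n = rb (muH τ) (muH τ (e x) (e x))
          (List.ofFn fun i : Fin (k + 2) => ((0, 0, Pi.basisFun F (Fin (k + 2)) i), 0)) := by
        rw [hn, hom_rb e em, em, List.map_ofFn]
        exact congrArg (fun z => rb _ _ (List.ofFn z)) (funext fun i => evL_of _ _ _)
      have n1 : (e n).1 = 0 := by rw [en]; exact muH_D τ (rb_D (mem_D _ _ _) _)
      have n2 : τ (e n).2.1 = 1 := by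
        rw [en, rb_ext τ _ (mem_D _ _ _), List.map_ofFn, ex, muH_apply]
        simpa [Function.comp_def] using hτ
      have n3 : cls τ (e n) 0 = 1 := by
        rw [← n2, en, List.ofFn_succ, List.ofFn_succ, rb, rb,
          cls_run τ (rb_D (mem_D _ _ _) _), if_pos rfl, mul_one]
      have h0 := idealGen_le (isIdeal_ker _ e em) (Set.union_subset (tval_ker _ e em (by
        rintro f (hf | ⟨z, -, rfl⟩)
        exacts [(base_iff _).2 (muH_base τ) f hf, muH_gm τ _ _])) (by
          intro f hf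
          obtain ⟨i, -, rfl⟩ := Finset.mem_image.1 hf
          rw [SetLike.mem_coe, LinearMap.mem_ker, map_sub, em, em, em, em, em,
            muH_L τ _ (muH_D τ (mem_D _ _ _)), muH_L τ (e (g i)) n1, sub_eq_zero]
          simp only [cls_L τ _ (muH_D τ (mem_D _ _ _)), cls_LR τ _ _ n1, ex, one_mul,
            sub_add_cancel])) hh
      have h1 : En (muH τ) (e x) (e x) (e x) (e u) (e s) = 0 := by
        simp only [LinearMap.mem_ker, map_sub, em] at h0
        exact h0
      rw [En_H τ _ _ _ _ (by rw [hs, em]; rfl), hs, em, em, cls_LR τ _ _ n1, ex, eu] at h1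
      have := congrArg (fun z => z.2.2.2.2) h1
      simp [n3] at this)
  have hmul := mkQ_mul J j1
  have hI := holds_of _ J.mkQ hmul J.mkQ_surjective (I := IE F E) (by
    rw [J.ker_mkQ]; exact fun f hf => j2 (subset_idealGen _ (Or.inl hf)))
  have h : Base (quotMul J j1) := (base_iff _).1 fun f hf => hI f (Or.inl hf)
  have gg := gen_of _ J.mkQ hmul J.mkQ_surjective
  have qn : J.mkQ n = rb (quotMul J j1) (quotMul J j1 (J.mkQ x) (J.mkQ x))
      (List.ofFn fun i : Fin (k + 2) => J.mkQ (g i.succ.succ)) := by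
    rw [hn, hom_rb J.mkQ hmul, hmul, List.map_ofFn]; rfl
  have nD : J.mkQ n ∈ D (quotMul J j1) := qn ▸ rb_D (mem_D _ _ _) _
  have := neg_abs h (J.mkQ x) (J.mkQ u) nD (fun y => by
    rw [← sub_eq_zero, ← map_sub]
    refine (Submodule.mem_bot F).1 (gensL h gg (sub_mem (mem_D _ _ _) nD) (fun i => ?_) y)
    have : J.mkQ (g i * (x * s) - g i * n) = 0 := (Submodule.Quotient.mk_eq_zero _).2
      (j2 (subset_idealGen _ (Or.inr (Finset.mem_image_of_mem _ (Finset.mem_univ i)))))
    simpa only [map_sub, hmul, hs, Submodule.mem_bot, U_some] using this)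
    (fun L => (hE L).imp fun m hm a h1 h2 => by
      rw [qn]; exact gm_apply (hI _ (Or.inr ⟨(k, a), hm a h1 h2, rfl⟩)) _ _ _)
  refine j4 ((Submodule.Quotient.mk_eq_zero _).1 (?_ : J.mkQ _ = 0))
  simp only [map_sub, hmul, hs]
  exact this

end Pool.Agent.Lib.MP_038c09_al.Bo
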