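import Pool.Agent.Lib.MP_038c09_al.UndDefs

/-!
The third level of the Borel hierarchy, and ideals of identities.
-/

namespace Pool.Agent.Lib.MP_038c09_al

/-- `A` is a countable intersection of countable unions of closed sets. -/
def IsFsd {α : Type} [TopologicalSpace α] (A : Set α) : Prop :=
  ∃ C : ℕ → ℕ → Set α, (∀ k m, IsClosed (C k m)) ∧ A = ⋂ k, ⋃ m, C k m

/-- `I` is a T-ideal: it equals the ideal generated by all substitution values of its members,
so it is the set of all identities of the variety it defines. -/
def IsTIdeal {F : Type} [Field F] (I : Set (FA F ℕ)) : Prop := I = idealGen (TVal I ℕ)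

end Pool.Agent.Lib.MP_038c09_al
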