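import Pool.Agent.Lib.MP_038c09_al.Bo.B5
import Pool.Agent.Lib.MP_038c09_al.Bo.BDefs

/-!
T-ideals: membership of a polynomial depends only on the identities of small degree.
-/

namespace Pool.Agent.Lib.MP_038c09_al.Bo

variable {F : Type} [Field F] {X Y : Type} {I : Set (FA F ℕ)}

/-- substitution as a linear map -/
noncomputable def sb (φ : Y → FA F X) : FA F Y →ₗ[F] FA F X := evL (LinearMap.mul F _) φ

theorem lift_eq (φ : Y → FA F X) (f : FA F Y) :
    FreeNonUnitalNonAssocAlgebra.lift F φ f = sb φ f := by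
  have := hom_lift (LinearMap.mul F (FA F X)) (LinearMap.id : FA F X →ₗ[F] FA F X)
    (fun _ _ => by simp) φ f
  simpa only [LinearMap.id_apply, sb] using this

theorem sb_mul (φ : Y → FA F X) (f g : FA F Y) : sb φ (f * g) = sb φ f * sb φ g := evL_mul _ _ f g

theorem sb_of (f : FA F X) : sb (FreeNonUnitalNonAssocAlgebra.of F) f = f :=
  fa_ind (LinearMap.eqLocus (sb (FreeNonUnitalNonAssocAlgebra.of F)) LinearMap.id)
    (fun x => evL_of _ _ x) (fun a ha b hb => by
      rw [LinearMap.mem_eqLocus] at ha hb ⊢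
      rw [sb_mul, ha, hb]; rfl) f

theorem sb_T (φ : Y → FA F X) {g : FA F Y} (hg : g ∈ idealGen (TVal I Y)) :
    sb φ g ∈ idealGen (TVal I X) := by
  refine (idealGen_le (J := (idealGen (TVal I X)).comap (sb φ)) (fun x y hy => ?_) ?_) hg
  · simp only [Submodule.mem_comap, sb_mul]
    exact isIdeal_idealGen _ _ _ hy
  · rintro _ ⟨f, hf, ψ, rfl⟩
    refine subset_idealGen _ ⟨f, hf, fun i => sb φ (ψ i), ?_⟩
    rw [hom_lift (LinearMap.mul F (FA F X)) (sb φ) (sb_mul φ) ψ f, lift_eq]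
    rfl

theorem sub_T : I ⊆ idealGen (TVal I ℕ) := fun f hf =>
  subset_idealGen _ ⟨f, hf, _, ((lift_eq _ f).trans (sb_of f)).symm⟩

theorem gen_T (R : Set (FA F X)) :
    idealGen (TVal (idealGen (TVal I ℕ) : Set (FA F ℕ)) X ∪ R) = idealGen (TVal I X ∪ R) := by
  refine le_antisymm (idealGen_le (isIdeal_idealGen _) ?_)
    (idealGen_mono (Set.union_subset_union_left _ (tval_mono sub_T)))
  rintro _ (⟨f, hf, φ, rfl⟩ | h)
  · rw [lift_eq]; exact idealGen_mono Set.subset_union_left (sb_T φ hf)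
  · exact subset_idealGen _ (Or.inr h)

theorem isT_T : IsTIdeal (idealGen (TVal I ℕ) : Set (FA F ℕ)) := by
  have := gen_T (I := I) (∅ : Set (FA F ℕ))
  rw [Set.union_empty, Set.union_empty] at this
  rw [IsTIdeal, this]

theorem rfd_T : IsRFDVariety (idealGen (TVal I ℕ) : Set (FA F ℕ)) ↔ IsRFDVariety I := by
  simp only [IsRFDVariety, gen_T]

/-- the span of the monomials of degree at least `d` -/
noncomputable def Ge (F : Type) [Field F] (X : Type) (d : ℕ) : Submodule F (FA F X) :=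
  Submodule.span F {z | ∃ w : FreeMagma X, d ≤ w.length ∧ z = mon F w}

theorem Ge_anti {d d' : ℕ} (h : d ≤ d') : Ge F X d' ≤ Ge F X d :=
  Submodule.span_mono fun _ ⟨w, hw, e⟩ => ⟨w, h.trans hw, e⟩

theorem Ge_mul {a b : ℕ} {f g : FA F X} (hf : f ∈ Ge F X a) (hg : g ∈ Ge F X b) :
    f * g ∈ Ge F X (a + b) := by
  have : Submodule.map₂ (LinearMap.mul F _) (Ge F X a) (Ge F X b) ≤ Ge F X (a + b) := by
    rw [Ge, Ge, Submodule.map₂_span_span, Submodule.span_le]
    rintro _ ⟨_, ⟨s, hs, rfl⟩, _, ⟨t, ht, rfl⟩, rfl⟩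
    exact Submodule.subset_span ⟨s * t, Nat.add_le_add hs ht, (mon_mul s t).symm⟩
  exact this (Submodule.apply_mem_map₂ _ hf hg)

theorem Ge_one (f : FA F X) : f ∈ Ge F X 1 :=
  fa_ind (Ge F X 1) (fun x => Submodule.subset_span ⟨.of x, le_rfl, rfl⟩)
    (fun _ ha _ hb => Ge_anti (by norm_num) (Ge_mul ha hb)) f

theorem Ge_ideal (d : ℕ) : IsIdeal (Ge F X d) := fun x _ hy =>
  ⟨Ge_anti (by omega) (Ge_mul (Ge_one x) hy), Ge_anti (by omega) (Ge_mul hy (Ge_one x))⟩

theorem sb_Ge (φ : Y → FA F X) {d : ℕ} : Ge F Y d ≤ (Ge F X d).comap (sb φ) := by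
  refine Submodule.span_le.2 ?_
  rintro _ ⟨w, hw, rfl⟩
  refine Ge_anti hw (?_ : sb φ (mon F w) ∈ Ge F X w.length)
  clear hw
  induction w with
  | ih1 x => exact Ge_one _
  | ih2 s t hs ht => rw [mon_mul, sb_mul]; exact Ge_mul hs ht

/-- the homogeneous component of degree `j` -/
noncomputable def cp (j : ℕ) : FA F X →ₗ[F] FA F X :=
  (MonoidAlgebra.basis (FreeMagma X) F).constr F fun w => if w.length = j then mon F w else 0

theorem cp_mon (j : ℕ) (w : FreeMagma X) :
    cp j (mon F w) = if w.length = j then mon F w else 0 := by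
  rw [mon_eq, ← MonoidAlgebra.basis_apply, cp, Module.Basis.constr_basis]; rfl

theorem cp_Ge {j d : ℕ} (h : j < d) : Ge F X d ≤ LinearMap.ker (cp j) := by
  refine Submodule.span_le.2 ?_
  rintro _ ⟨w, hw, rfl⟩
  exact (cp_mon j w).trans (if_neg (by omega))

theorem scale_mon (c : F) (w : FreeMagma X) :
    sb (fun x => c • FreeNonUnitalNonAssocAlgebra.of F x) (mon F w) = c ^ w.length • mon F w := by
  induction w with
  | ih1 x => exact (evL_of _ _ x).trans (by rw [FreeMagma.length, pow_one]; rfl)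
  | ih2 s t hs ht =>
    rw [mon_mul, sb_mul, hs, ht, smul_mul_assoc, mul_smul_comm, smul_smul, ← pow_add]; rfl

theorem exists_deg (g : FA F X) : ∃ N, ∀ N' ≥ N, ∀ c : F,
    sb (fun x => c • FreeNonUnitalNonAssocAlgebra.of F x) g =
      ∑ j ∈ Finset.range N', c ^ j • cp j g := by
  induction g using MonoidAlgebra.induction_linear with
  | zero => exact ⟨0, by simp⟩
  | add f g h h' =>
    obtain ⟨N, h⟩ := h
    obtain ⟨M, h'⟩ := h'
    refine ⟨max N M, fun N' hN c => ?_⟩
    rw [map_add, h N' (le_of_max_le_left hN), h' N' (le_of_max_le_right hN),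
      ← Finset.sum_add_distrib]
    simp
  | single s a =>
    refine ⟨s.length + 1, fun N' hN c => ?_⟩
    rw [single_eq, map_smul, scale_mon, Finset.sum_eq_single s.length
      (fun j _ hj => by simp [cp_mon, hj.symm]) (fun h => (h (by simpa using hN)).elim)]
    simp [cp_mon, smul_comm a]

theorem cp_T [Infinite F] {g : FA F X} (hg : g ∈ idealGen (TVal I X)) (j : ℕ) :
    cp j g ∈ idealGen (TVal I X) := by
  obtain ⟨N, hN⟩ := exists_deg g
  set T := idealGen (TVal I X) with hT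
  refine (Submodule.Quotient.mk_eq_zero T).1 ((Module.forall_dual_apply_eq_zero_iff F _).1
    fun l => ?_)
  have h1 : (∑ i ∈ Finset.range (N + j + 1),
      Polynomial.monomial i (l (T.mkQ (cp i g)))) = 0 := Polynomial.funext fun c => by
    have h2 : T.mkQ (∑ i ∈ Finset.range (N + j + 1), c ^ i • cp i g) = 0 := by
      rw [← hN _ (by omega)]
      exact (Submodule.Quotient.mk_eq_zero T).2 (sb_T _ hg)
    have h3 := congrArg l h2
    simp only [map_sum, map_smul, smul_eq_mul, map_zero] at h3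
    simp only [Polynomial.eval_finsetSum, Polynomial.eval_monomial, Polynomial.eval_zero]
    rw [← h3]
    exact Finset.sum_congr rfl fun _ _ => mul_comm _ _
  have h4 := congrArg (fun p => p.coeff j) h1
  simp only [Polynomial.finsetSum_coeff, Polynomial.coeff_monomial, Finset.sum_ite_eq',
    Finset.mem_range, Polynomial.coeff_zero] at h4
  rwa [if_pos (by omega)] at h4

theorem low_deg [Infinite F] (g : FA F ℕ) : ∃ N, ∀ I I' : Set (FA F ℕ),
    (∀ f ∈ I, f ∈ I' ∨ f ∈ Ge F ℕ N) → g ∈ idealGen (TVal I ℕ) → g ∈ idealGen (TVal I' ℕ) := by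
  obtain ⟨N, hN⟩ := exists_deg g
  refine ⟨N, fun I I' h hg => ?_⟩
  have h1 : idealGen (TVal I ℕ) ≤ idealGen (TVal I' ℕ) ⊔ Ge F ℕ N := by
    refine idealGen_le (fun x y hy => ?_) ?_
    · obtain ⟨a, ha, b, hb, rfl⟩ := Submodule.mem_sup.1 hy
      rw [mul_add, add_mul]
      exact ⟨Submodule.add_mem_sup (isIdeal_idealGen _ x a ha).1 (Ge_ideal N x b hb).1,
        Submodule.add_mem_sup (isIdeal_idealGen _ x a ha).2 (Ge_ideal N x b hb).2⟩
    · rintro _ ⟨f, hf, φ, rfl⟩
      rcases h f hf with h | h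
      · exact Submodule.mem_sup_left (subset_idealGen _ ⟨f, h, φ, rfl⟩)
      · rw [lift_eq]; exact Submodule.mem_sup_right (sb_Ge φ h)
  obtain ⟨a, ha, b, hb, e⟩ := Submodule.mem_sup.1 (h1 hg)
  have h2 := hN N le_rfl 1
  simp only [one_smul, one_pow] at h2
  rw [← sb_of g, h2]
  refine Submodule.sum_mem _ fun j hj => ?_
  rw [← e, map_add, show cp j b = 0 from cp_Ge (Finset.mem_range.1 hj) hb, add_zero]
  exact cp_T ha j

theorem len_runm : ∀ l : List ℕ, (runm l).length = l.length + 2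
  | [] => rfl
  | _ :: l => congrArg (· + 1) (len_runm l)

theorem len_lpm (s : FreeMagma ℕ) : ∀ a, (lpm s a).length = a + s.length
  | 0 => (zero_add _).symm
  | a + 1 => by
    change 1 + (lpm s a).length = _
    rw [len_lpm s a]; omega

theorem gm_Ge (k a : ℕ) : gm F k a ∈ Ge F ℕ (k + a) := by
  have : k + a ≤ (st k a).length := by
    rw [st, len_lpm, len_runm, List.length_ofFn]; omega
  exact sub_mem (Submodule.subset_span ⟨_, by simp only [FreeMagma.length]; omega, rfl⟩)
    (Submodule.subset_span ⟨_, by simp only [FreeMagma.length]; omega, rfl⟩)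

end Pool.Agent.Lib.MP_038c09_al.Bo
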