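import Pool.Agent.Lib.MP_038c09_al.Bo.B6

/-!
Hardness for the third level of the Borel hierarchy, and membership over countable fields.
-/

namespace Pool.Agent.Lib.MP_038c09_al.Bo

variable {F : Type} [Field F]

/-- the first `m` sets are excluded by the first `j` coordinates of `x` -/
def Dead (C : ℕ → Set (ℕ → Bool)) (x : ℕ → Bool) (m j : ℕ) : Prop :=
  m ≤ j ∧ ∀ m' < m, Disjoint (C m') (PiNat.cylinder x j)

theorem Dead.mono {C : ℕ → Set (ℕ → Bool)} {x : ℕ → Bool} {m j j' : ℕ} (h : Dead C x m j)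
    (hj : j ≤ j') : Dead C x m j' :=
  ⟨h.1.trans hj, fun m' hm => (h.2 m' hm).mono_right (PiNat.cylinder_anti x hj)⟩

/-- some new set is excluded at stage `j` -/
def Sw (C : ℕ → Set (ℕ → Bool)) (x : ℕ → Bool) (j : ℕ) : Prop :=
  ∃ m, Dead C x m (j + 1) ∧ ¬Dead C x m j

theorem sw_finite {C : ℕ → Set (ℕ → Bool)} {x : ℕ → Bool} {m0 : ℕ} (h : x ∈ C m0) :
    {j | Sw C x j}.Finite := by
  refine ((Set.finite_le_nat m0).biUnion (t := fun m => {j | Dead C x m (j + 1) ∧ ¬Dead C x m j})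
    fun m _ => Set.Subsingleton.finite fun j hj j' hj' => ?_).subset fun j ⟨m, hm⟩ => ?_
  · by_contra hne
    rcases lt_or_gt_of_ne hne with h | h
    · exact hj'.2 (hj.1.mono h)
    · exact hj.2 (hj'.1.mono h)
  · refine Set.mem_biUnion (not_lt.1 fun hlt => ?_ : m ≤ m0) hm
    exact Set.disjoint_left.1 (hm.1.2 m0 hlt) h (PiNat.self_mem_cylinder x _)

theorem sw_inf {C : ℕ → Set (ℕ → Bool)} (hC : ∀ m, IsClosed (C m)) {x : ℕ → Bool}
    (h : ∀ m, x ∉ C m) (J : ℕ) : ∃ j, J ≤ j ∧ Sw C x j := by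
  classical
  choose n hn using fun m => PiNat.exists_disjoint_cylinder (hC m) (h m)
  have h1 : ∃ j, Dead C x (J + 1) j := ⟨J + 1 + (Finset.range (J + 1)).sup n,
    Nat.le_add_right _ _, fun m' hm => (hn m').mono_right (PiNat.cylinder_anti x
      ((Finset.le_sup (Finset.mem_range.2 hm)).trans (Nat.le_add_left _ _)))⟩
  have h2 := Nat.find_spec h1
  have h3 := h2.1
  obtain ⟨j, hj⟩ : ∃ j, Nat.find h1 = j + 1 := ⟨Nat.find h1 - 1, by omega⟩
  exact ⟨j, by omega, J + 1, hj ▸ h2, Nat.find_min h1 (by omega)⟩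

theorem sw_congr {C : ℕ → Set (ℕ → Bool)} {x y : ℕ → Bool} {N j : ℕ}
    (h : y ∈ PiNat.cylinder x N) (hj : j < N) (hs : Sw C x j) : Sw C y j := by
  have e : ∀ i ≤ N, PiNat.cylinder y i = PiNat.cylinder x i := fun i hi =>
    PiNat.mem_cylinder_iff_eq.1 (PiNat.cylinder_anti x hi h)
  simpa only [Sw, Dead, e _ hj.le, e (j + 1) hj] using hs

theorem cont_of_cyl {p : (ℕ → Bool) → Bool} {N : ℕ}
    (h : ∀ x, ∀ y ∈ PiNat.cylinder x N, p y = p x) : Continuous p :=
  (IsLocallyConstant.iff_exists_open p).2 (fun x => ⟨_, PiNat.isOpen_cylinder _ x N,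
    PiNat.self_mem_cylinder x N, h x⟩) |>.continuous

theorem hard (F : Type) [Field F] [CharZero F] (A : Set (ℕ → Bool)) (hA : IsFsd A) :
    ∃ f : (ℕ → Bool) → FA F ℕ → Bool, Continuous f ∧ ∀ x, IsTIdeal {g | f x g = true} ∧
      f x (metab F) = true ∧ (x ∈ A ↔ IsRFDVariety {g | f x g = true}) := by
  classical
  obtain ⟨C, hC, rfl⟩ := hA
  set E : (ℕ → Bool) → Set (ℕ × ℕ) := fun x => {z | Sw (C z.1) x (Nat.sqrt z.2)} with hE
  have : Infinite F := Infinite.of_injective _ (Nat.cast_injective (R := F))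
  refine ⟨fun x g => decide (g ∈ idealGen (TVal (IE F (E x)) ℕ)), continuous_pi fun g => ?_,
    fun x => ?_⟩
  · obtain ⟨N, hN⟩ := low_deg g
    have key : ∀ x, ∀ y ∈ PiNat.cylinder x N, g ∈ idealGen (TVal (IE F (E x)) ℕ) →
        g ∈ idealGen (TVal (IE F (E y)) ℕ) := fun x y hy => hN _ _ (by
      rintro f (hf | ⟨z, hz, rfl⟩)
      · exact Or.inl (Or.inl hf)
      · by_cases h : z.2 < N
        · exact Or.inl (Or.inr ⟨z, sw_congr hy ((Nat.sqrt_le_self _).trans_lt h) hz, rfl⟩)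
        · exact Or.inr (Ge_anti (by omega) (gm_Ge z.1 z.2)))
    exact cont_of_cyl (N := N) fun x y hy => decide_eq_decide.2
      ⟨key y x ((PiNat.mem_cylinder_comm _ _ _).1 hy), key x y hy⟩
  · have e : {g | decide (g ∈ idealGen (TVal (IE F (E x)) ℕ)) = true} =
        (idealGen (TVal (IE F (E x)) ℕ) : Set (FA F ℕ)) := by ext; simp
    rw [e, rfd_T]
    refine ⟨isT_T, decide_eq_true (sub_T (Or.inl (Set.mem_insert _ _))), fun hx => pos fun k => ?_,
      fun hR => Set.mem_iInter.2 fun k => by_contra fun hx => neg (k := k) (fun L => ?_) hR⟩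
    · obtain ⟨m, hm⟩ := Set.mem_iUnion.1 (Set.mem_iInter.1 hx k)
      obtain ⟨M, hM⟩ := (sw_finite hm).bddAbove
      exact (Set.finite_lt_nat ((M + 1) * (M + 1))).subset fun a ha =>
        Nat.sqrt_lt.1 (Nat.lt_succ_of_le (hM ha))
    · obtain ⟨j, h1, h2⟩ := sw_inf (hC k) (fun m hm => hx (Set.mem_iUnion.2 ⟨m, hm⟩)) L
      refine ⟨j * j, fun a h3 h4 => ?_⟩
      change Sw (C k) x (Nat.sqrt a)
      rwa [← Nat.eq_sqrt.2 ⟨h3, by nlinarith⟩]

theorem isFsd_of {α ι : Type} {κ : ι → Type} [TopologicalSpace α] [Countable ι] [Nonempty ι]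
    [∀ i, Countable (κ i)] [∀ i, Nonempty (κ i)] (C : ∀ i, κ i → Set α)
    (hC : ∀ i k, IsClosed (C i k)) : IsFsd (⋂ i, ⋃ k, C i k) := by
  obtain ⟨s, hs⟩ := exists_surjective_nat ι
  choose t ht using fun i => exists_surjective_nat (κ i)
  refine ⟨fun i k => C (s i) (t _ k), fun _ _ => hC _ _, ?_⟩
  rw [← hs.iInter_comp]
  exact Set.iInter_congr fun i => ((ht _).iUnion_comp _).symm

/-- a numbering of monomials -/
def num {X : Type} (e : X → ℕ) : FreeMagma X → ℕ
  | .of x => 2 * e x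
  | .mul s t => 2 * Nat.pair (num e s) (num e t) + 1

theorem num_inj {X : Type} {e : X → ℕ} (he : Function.Injective e) :
    ∀ s t : FreeMagma X, num e s = num e t → s = t
  | .of x, .of y, h => congrArg _ (he (by simp only [num] at h; omega))
  | .of _, .mul _ _, h => by simp only [num] at h; omega
  | .mul _ _, .of _, h => by simp only [num] at h; omega
  | .mul s t, .mul s' t', h => by
    have := Nat.pair_eq_pair.1 (show Nat.pair (num e s) (num e t) = Nat.pair (num e s') (num e t')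
      by simp only [num] at h; omega)
    rw [num_inj he s s' this.1, num_inj he t t' this.2]

theorem countable_FA [Countable F] (X : Type) [Countable X] : Countable (FA F X) := by
  obtain ⟨e, he⟩ := exists_injective_nat X
  have : Countable (FreeMagma X) := ⟨num e, num_inj he⟩
  exact (MonoidAlgebra.basis (FreeMagma X) F).repr.injective.countable

theorem fin_char {X : Type} {I : Set (FA F ℕ)} {R : Set (FA F X)} {a : FA F X}
    (ha : a ∈ idealGen (TVal I X ∪ R)) :
    ∃ s : Finset (FA F ℕ), ↑s ⊆ I ∧ a ∈ idealGen (TVal (s : Set (FA F ℕ)) X ∪ R) := by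
  classical
  have mono : ∀ {s t : Finset (FA F ℕ)}, s ⊆ t → idealGen (TVal (s : Set (FA F ℕ)) X ∪ R) ≤
      idealGen (TVal (t : Set (FA F ℕ)) X ∪ R) := fun h =>
    idealGen_mono (Set.union_subset_union_left _ (tval_mono h))
  let W : Submodule F (FA F X) :=
    { carrier := {a | ∃ s : Finset (FA F ℕ), ↑s ⊆ I ∧
        a ∈ idealGen (TVal (s : Set (FA F ℕ)) X ∪ R)}
      add_mem' := fun ⟨s, h1, h2⟩ ⟨t, h3, h4⟩ => ⟨s ∪ t, by simpa using ⟨h1, h3⟩,
        add_mem (mono Finset.subset_union_left h2) (mono Finset.subset_union_right h4)⟩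
      zero_mem' := ⟨∅, by simp, zero_mem _⟩
      smul_mem' := fun c _ ⟨s, h1, h2⟩ => ⟨s, h1, Submodule.smul_mem _ c h2⟩ }
  refine idealGen_le (J := W) (fun x y ⟨s, h1, h2⟩ => ⟨⟨s, h1, (isIdeal_idealGen _ x y h2).1⟩,
    ⟨s, h1, (isIdeal_idealGen _ x y h2).2⟩⟩) ?_ ha
  rintro z (⟨f, hf, e⟩ | hz)
  · exact ⟨{f}, by simpa using hf, subset_idealGen _ (Or.inl ⟨f, by simp, e⟩)⟩
  · exact ⟨∅, by simp, subset_idealGen _ (Or.inr hz)⟩

theorem countable_ideals [Countable F] (n : ℕ) :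
    {J : Submodule F (FA F (Fin n)) | IsIdeal J ∧ Module.Finite F (FA F (Fin n) ⧸ J)}.Countable := by
  have : ∀ m, Countable ((Fin m → F) →ₗ[F] (Fin m → F) →ₗ[F] (Fin m → F)) := fun m =>
    Finsupp.Countable.of_moduleFinite (R := F)
  refine (Set.countable_range fun z : Σ m : ℕ, ((Fin m → F) →ₗ[F] (Fin m → F) →ₗ[F] (Fin m → F)) ×
    (Fin n → Fin m → F) => LinearMap.ker (evL z.2.1 z.2.2)).mono fun J ⟨h1, h2⟩ => ?_
  set e := (Module.finBasis F (FA F (Fin n) ⧸ J)).equivFun with he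
  set q := e.toLinearMap ∘ₗ J.mkQ with hq
  set μ := ((quotMul J h1).compl₁₂ e.symm.toLinearMap e.symm.toLinearMap).compr₂ e.toLinearMap
    with hμ
  have hmul : ∀ f g, q (f * g) = μ (q f) (q g) := fun f g => by
    simp only [hq, hμ, LinearMap.comp_apply, mkQ_mul J h1, LinearMap.compr₂_apply,
      LinearMap.compl₁₂_apply, LinearEquiv.coe_coe, LinearEquiv.symm_apply_apply]
  refine ⟨⟨_, μ, fun x => q (FreeNonUnitalNonAssocAlgebra.of F x)⟩, ?_⟩
  have : evL μ (fun x => q (FreeNonUnitalNonAssocAlgebra.of F x)) = q := LinearMap.ext fun f => by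
    rw [← hom_lift μ q hmul, lift_eq, sb_of]
  change LinearMap.ker (evL μ _) = J
  rw [this, hq, LinearEquiv.ker_comp, Submodule.ker_mkQ]

theorem member (F : Type) [Field F] [Countable F] :
    IsFsd {χ : FA F ℕ → Bool | IsRFDVariety {g | χ g = true}} := by
  classical
  have := countable_FA (F := F) ℕ
  have := fun n => countable_FA (F := F) (Fin n)
  have := fun n => (countable_ideals (F := F) n).to_subtype
  have h := isFsd_of (α := FA F ℕ → Bool)
    (ι := Σ n : ℕ, Finset (FA F (Fin n)) × FA F (Fin n))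
    (κ := fun i => Finset (FA F ℕ) ⊕ {J : Submodule F (FA F (Fin i.1)) |
      IsIdeal J ∧ Module.Finite F (FA F (Fin i.1) ⧸ J)})
    (fun i => Sum.elim
      (fun s => {χ | i.2.2 ∈ idealGen (TVal (s : Set (FA F ℕ)) (Fin i.1) ∪ ↑i.2.1) ∧
        ∀ f ∈ s, χ f = true})
      fun J => {χ | i.2.2 ∉ J.1 ∧ (∀ z ∈ i.2.1, z ∈ J.1) ∧
        ∀ f, ¬(∀ z ∈ TVal {f} (Fin i.1), z ∈ J.1) → χ f = false})
    (by
      have c : ∀ (f : FA F ℕ) (b : Bool), IsClosed {χ : FA F ℕ → Bool | χ f = b} := fun f b =>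
        isClosed_eq (continuous_apply f) continuous_const
      rintro ⟨n, R, a⟩ (s | J)
      · simp only [Sum.elim_inl, Set.ofPred_and, Set.ofPred_forall]
        exact isClosed_const.inter (isClosed_iInter fun f => isClosed_iInter fun _ => c f _)
      · simp only [Sum.elim_inr]
        refine isClosed_const.inter (isClosed_const.inter ?_)
        change IsClosed {χ : FA F ℕ → Bool | ∀ f, _ → χ f = false}
        simp only [Set.ofPred_forall]
        exact isClosed_iInter fun f => isClosed_iInter fun _ => c f _)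
  refine (congrArg IsFsd ?_).mp h
  ext χ
  simp only [Set.mem_iInter, Set.mem_iUnion, Set.mem_ofPred_eq, IsRFDVariety, Sigma.forall,
    Prod.forall]
  refine forall_congr' fun n => forall_congr' fun R => forall_congr' fun a => ⟨?_, fun h => ?_⟩
  · rintro ⟨s | J, h⟩ ha
    · exact (ha (idealGen_mono (Set.union_subset_union_left _ (tval_mono h.2)) h.1)).elim
    · obtain ⟨h1, h2, h3⟩ := h
      refine ⟨J.1, J.2.1, idealGen_le J.2.1 (Set.union_subset ?_ h2), J.2.2, h1⟩
      rintro z ⟨f, hf, e⟩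
      by_contra hz
      have := h3 f fun h => hz (h _ ⟨f, rfl, e⟩)
      rw [show χ f = true from hf] at this
      exact Bool.noConfusion this
  · by_cases ha : a ∈ idealGen (TVal {g | χ g = true} (Fin n) ∪ ↑R)
    · obtain ⟨s, h1, h2⟩ := fin_char ha
      exact ⟨Sum.inl s, h2, h1⟩
    · obtain ⟨J, j1, j2, j3, j4⟩ := h ha
      refine ⟨Sum.inr ⟨J, j1, j3⟩, j4, fun z hz => j2 (subset_idealGen _ (Or.inr hz)),
        fun f hf => Bool.eq_false_iff.2 fun h => hf fun z hz => j2 (subset_idealGen _ (Or.inl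
          (tval_mono (Set.singleton_subset_iff.2 h) hz)))⟩

end Pool.Agent.Lib.MP_038c09_al.Bo
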