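import Pool.Agent.Lib.MP_038c09_al.Bo.B7

/-!
Consequence of hardness: no countable list of conditions of the usual form describes the class.
-/

namespace Pool.Agent.Lib.MP_038c09_al.Bo

theorem open_eval {α : Type} (a : α) (b : Bool) : IsOpen {χ : α → Bool | χ a = b} :=
  (continuous_apply a : Continuous fun χ : α → Bool => χ a).isOpen_preimage {b}
    (isOpen_discrete _)

/-- A countable intersection of countable unions of closed sets that is not a countable union of
countable intersections of open sets. -/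
theorem exists_not_gds : ∃ A : Set (ℕ → Bool), IsFsd A ∧
    ∀ O : ℕ → ℕ → Set (ℕ → Bool), (∀ i j, IsOpen (O i j)) → A ≠ ⋃ i, ⋂ j, O i j := by
  classical
  let N : (Σ n : ℕ, Fin n → Bool) → Set (ℕ → Bool) := fun s => {x | ∀ i : Fin s.1, x i = s.2 i}
  have hN : ∀ s, IsOpen (N s) := fun s => by
    simp only [N, Set.ofPred_forall]
    exact isOpen_iInter_of_finite fun i => open_eval _ _
  obtain ⟨e, he⟩ := exists_injective_nat (ℕ × ℕ × Σ n : ℕ, Fin n → Bool)
  refine ⟨⋂ i, ⋃ j, ⋂ s, ({x | x (e (i, j, s)) = true} ∩ N s)ᶜ,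
    ⟨fun i j => ⋂ s, ({x | x (e (i, j, s)) = true} ∩ N s)ᶜ, fun i j => isClosed_iInter
      fun s => ((open_eval _ _).inter (hN s)).isClosed_compl, rfl⟩, fun O hO h => ?_⟩
  set y : ℕ → Bool := fun n => decide (∃ z, e z = n ∧ N z.2.2 ⊆ O z.1 z.2.1) with hy
  have h1 : ∀ i j, y ∈ O i j ↔ ∃ s, y (e (i, j, s)) = true ∧ y ∈ N s := fun i j => by
    constructor
    · intro hx
      obtain ⟨n, hn⟩ := PiNat.exists_disjoint_cylinder (hO i j).isClosed_compl (not_not.2 hx)
      exact ⟨⟨n, fun k => y k⟩, decide_eq_true ⟨_, rfl, fun x hx => by_contra fun hx' =>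
        Set.disjoint_left.1 hn hx' fun k hk => hx ⟨k, hk⟩⟩, fun _ => rfl⟩
    · rintro ⟨s, h2, h3⟩
      obtain ⟨z, h4, h5⟩ := of_decide_eq_true h2
      rw [he h4] at h5
      exact h5 h3
  have h2 := Set.ext_iff.1 h y
  simp only [Set.mem_iInter, Set.mem_iUnion, Set.mem_compl_iff, Set.mem_inter_iff,
    Set.mem_ofPred_eq, h1] at h2
  by_cases h3 : ∃ i, ∀ j, ∃ s, y (e (i, j, s)) = true ∧ y ∈ N s
  · obtain ⟨i, hi⟩ := h3
    obtain ⟨j, hj⟩ := h2.2 ⟨i, hi⟩ i
    obtain ⟨s, hs⟩ := hi j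
    exact hj s hs
  · exact h3 (h2.1 (by simpa only [not_exists, not_forall] using h3))

/-- The RFD-varieties are not a countable union of countable intersections of open sets, each
intersected with a closed set, in the space of T-ideals. -/
theorem not_gds (F : Type) [Field F] [CharZero F] (C : ℕ → Set (FA F ℕ → Bool))
    (O : ℕ → ℕ → Set (FA F ℕ → Bool)) (hC : ∀ i, IsClosed (C i)) (hO : ∀ i j, IsOpen (O i j)) :
    ¬∀ χ : FA F ℕ → Bool, IsTIdeal {g | χ g = true} →
      (IsRFDVariety {g | χ g = true} ↔ ∃ i, χ ∈ C i ∧ ∀ j, χ ∈ O i j) := fun h => by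
  obtain ⟨A, hA, hA'⟩ := exists_not_gds
  obtain ⟨f, hf, hf'⟩ := hard F A hA
  refine hA' (fun i j => f ⁻¹' O i j ∩ ⋃ y ∈ f ⁻¹' C i, PiNat.cylinder y j)
    (fun i j => ((hO i j).preimage hf).inter
      (isOpen_biUnion fun y _ => PiNat.isOpen_cylinder _ y j)) (Set.ext fun x => ?_)
  rw [(hf' x).2.2, h _ (hf' x).1]
  simp only [Set.mem_iUnion, Set.mem_iInter, Set.mem_inter_iff, Set.mem_preimage]
  refine exists_congr fun i => ⟨fun h j => ⟨h.2 j, x, h.1, PiNat.self_mem_cylinder x j⟩,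
    fun h => ⟨by_contra fun hx => ?_, fun j => (h j).1⟩⟩
  obtain ⟨n, hn⟩ := PiNat.exists_disjoint_cylinder ((hC i).preimage hf) hx
  obtain ⟨y, h1, h2⟩ := (h n).2
  exact Set.disjoint_left.1 hn h1 ((PiNat.mem_cylinder_comm _ _ _).1 h2)

/-- There is no countable list of conditions of the form: all identities of `P i` hold, and for
every `j` some identity of the variety lies outside `W i j`, that describes the RFD-varieties. -/
theorem no_description (F : Type) [Field F] [CharZero F] (P : ℕ → Set (FA F ℕ))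
    (W : ℕ → ℕ → Set (FA F ℕ)) : ¬∀ I : Set (FA F ℕ), IsTIdeal I →
      (IsRFDVariety I ↔ ∃ i, P i ⊆ I ∧ ∀ j, ¬I ⊆ W i j) := fun h => by
  refine not_gds F (fun i => ⋂ g ∈ P i, {χ | χ g = true})
    (fun i j => ⋃ g ∉ W i j, {χ | χ g = true})
    (fun i => isClosed_biInter fun g _ => isClosed_eq (continuous_apply g) continuous_const)
    (fun i j => isOpen_biUnion fun g _ => open_eval _ _) fun χ hχ => ?_
  rw [h _ hχ]
  simp only [Set.mem_iInter, Set.mem_iUnion, Set.mem_ofPred_eq, Set.subset_def, not_forall,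
    exists_prop]
  exact exists_congr fun i => and_congr_right fun _ => forall_congr' fun j =>
    exists_congr fun g => and_comm

end Pool.Agent.Lib.MP_038c09_al.Bo
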